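import Pool.Agent.W981.Hyp.Border

/-!
# The three skew-symmetric matrices of size three
-/

set_option autoImplicit false
set_option linter.unusedSectionVars false

namespace Pool.Agent.W981.Hyp

open Module Matrix MvPolynomial

variable {K : Type*} [Field K]

/-- the matrices of the cross products with the unit vectors -/
def crs (K : Type*) [Field K] : Fin 3 → Matrix (Fin 3) (Fin 3) K
  | 0 => !![0, 0, 0; 0, 0, -1; 0, 1, 0]
  | 1 => !![0, 0, 1; 0, 0, 0; -1, 0, 0]
  | 2 => !![0, -1, 0; 1, 0, 0; 0, 0, 0]

theorem crs0 (y : Fin 3 → K) : crs K 0 *ᵥ y = ![0, -y 2, y 1] := by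
  funext i; fin_cases i <;> simp [crs, mulVec, dotProduct, Fin.sum_univ_three]

theorem crs1 (y : Fin 3 → K) : crs K 1 *ᵥ y = ![y 2, 0, -y 0] := by
  funext i; fin_cases i <;> simp [crs, mulVec, dotProduct, Fin.sum_univ_three]

theorem crs2 (y : Fin 3 → K) : crs K 2 *ᵥ y = ![-y 1, y 0, 0] := by
  funext i; fin_cases i <;> simp [crs, mulVec, dotProduct, Fin.sum_univ_three]

theorem crs_images (W : Submodule K (Fin 3 → K)) : finrank K W ≤ finrank K (im (crs K) W) := by
  set E := im (crs K) W with hE
  have hmem : ∀ i, ∀ y ∈ W, crs K i *ᵥ y ∈ E := fun i y hy => mem_im hy i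
  by_cases hbot : W = ⊥
  · rw [hbot, finrank_bot]
    exact Nat.zero_le _
  obtain ⟨y, hy, hy0⟩ := Submodule.exists_mem_ne_zero_of_ne_bot hbot
  have h2 : 2 ≤ finrank K E := by
    have hpair : ∀ i j : Fin 3, LinearIndependent K ![crs K i *ᵥ y, crs K j *ᵥ y] →
        2 ≤ finrank K E := by
      intro i j hli
      have hle : Submodule.span K (Set.range ![crs K i *ᵥ y, crs K j *ᵥ y]) ≤ E := by
        rw [Submodule.span_le]
        rintro _ ⟨l, rfl⟩
        fin_cases l
        · exact hmem i y hy
        · exact hmem j y hy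
      have h5 := Submodule.finrank_mono hle
      rwa [finrank_span_eq_card hli, Fintype.card_fin] at h5
    obtain ⟨a, ha⟩ := Function.ne_iff.1 hy0
    rw [Pi.zero_apply] at ha
    fin_cases a
    · apply hpair 1 2
      rw [LinearIndependent.pair_iff, crs1, crs2]
      intro s t hst
      have e1 := congrFun hst 1
      have e2 := congrFun hst 2
      simp at e1 e2
      simp only [Fin.zero_eta] at ha
      exact ⟨e2.resolve_right ha, e1.resolve_right ha⟩
    · apply hpair 0 2
      rw [LinearIndependent.pair_iff, crs0, crs2]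
      intro s t hst
      have e1 := congrFun hst 0
      have e2 := congrFun hst 2
      simp at e1 e2
      simp only [Fin.mk_one] at ha
      exact ⟨e2.resolve_right ha, e1.resolve_right ha⟩
    · apply hpair 0 1
      rw [LinearIndependent.pair_iff, crs0, crs1]
      intro s t hst
      have e1 := congrFun hst 0
      have e2 := congrFun hst 1
      simp at e1 e2
      simp only [Fin.reduceFinMk] at ha
      exact ⟨e2.resolve_right ha, e1.resolve_right ha⟩
  by_cases h3 : finrank K W ≤ 2
  · exact h3.trans h2
  have hle := Submodule.finrank_le W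
  rw [finrank_fintype_fun_eq_card, Fintype.card_fin] at hle
  have hW : W = ⊤ := by
    apply Submodule.eq_top_of_finrank_eq
    rw [finrank_fintype_fun_eq_card, Fintype.card_fin]
    omega
  have hE' : E = ⊤ := by
    rw [eq_top_iff]
    intro z _
    have e0 := hmem 2 ![0, -z 0, 0] (by rw [hW]; trivial)
    have e1 := hmem 0 ![0, 0, -z 1] (by rw [hW]; trivial)
    have e2 := hmem 1 ![-z 2, 0, 0] (by rw [hW]; trivial)
    have h := E.add_mem (E.add_mem e0 e1) e2
    rw [crs0, crs1, crs2] at h
    convert h using 1
    funext i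
    fin_cases i <;> simp
  rw [hE', hW]

/-- the unit vectors -/
def ee (K : Type*) [Field K] (i : Fin 3) : Fin 3 → K := Pi.single i 1

theorem finrank_line (i : Fin 3) : finrank K (Submodule.span K {ee K i}) = 1 := by
  apply finrank_span_singleton
  intro h
  have := congrFun h i
  simp [ee] at this

theorem mem_plane {x : Fin 3 → K} (hx : x ∈ perp (Submodule.span K {ee K 0})) : x 0 = 0 := by
  have := hx _ (Submodule.mem_span_singleton_self _)
  simpa [ee] using this

theorem finrank_plane : finrank K (perp (Submodule.span K {ee K 0})) = 2 := by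
  have h := finrank_perp (Submodule.span K {ee K 0})
  rw [finrank_line, Fintype.card_fin] at h
  omega

theorem plane1 : (perp (Submodule.span K {ee K 0})).map (crs K 1).mulVecLin ≤
    Submodule.span K {ee K 0} := by
  rintro _ ⟨x, hx, rfl⟩
  rw [mulVecLin_apply, crs1, mem_plane hx, Submodule.mem_span_singleton]
  refine ⟨x 2, ?_⟩
  funext i
  fin_cases i <;> simp [ee]

theorem plane2 : (perp (Submodule.span K {ee K 0})).map (crs K 2).mulVecLin ≤
    Submodule.span K {ee K 0} := by
  rintro _ ⟨x, hx, rfl⟩
  rw [mulVecLin_apply, crs2, mem_plane hx, Submodule.mem_span_singleton]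
  refine ⟨-x 1, ?_⟩
  funext i
  fin_cases i <;> simp [ee]

theorem plane0 : (perp (Submodule.span K {ee K 0})).map (crs K 0).mulVecLin ≤
    Submodule.span K {ee K 1} ⊔ Submodule.span K {ee K 2} := by
  rintro _ ⟨x, hx, rfl⟩
  rw [mulVecLin_apply, crs0]
  have : (![0, -x 2, x 1] : Fin 3 → K) = (-x 2) • ee K 1 + x 1 • ee K 2 := by
    funext i
    fin_cases i <;> simp [ee]
  rw [this]
  exact Submodule.add_mem_sup (Submodule.smul_mem _ _ (Submodule.mem_span_singleton_self _))
    (Submodule.smul_mem _ _ (Submodule.mem_span_singleton_self _))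

theorem plane_sup (k : Fin 3) : finrank K ((perp (Submodule.span K {ee K 0})).map
    (crs K k).mulVecLin ⊔ Submodule.span K {ee K 1} : Submodule K (Fin 3 → K)) ≤ 2 := by
  have h2 : ∀ i j : Fin 3, finrank K (Submodule.span K {ee K i} ⊔ Submodule.span K {ee K j} :
      Submodule K (Fin 3 → K)) ≤ 2 := by
    intro i j
    have := Submodule.finrank_add_le_finrank_add_finrank (Submodule.span K {ee K i})
      (Submodule.span K {ee K j})
    rw [finrank_line, finrank_line] at this
    exact this
  fin_cases k
  · refine le_trans (Submodule.finrank_mono (sup_le plane0 le_sup_left)) (h2 1 2)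
  · exact le_trans (Submodule.finrank_mono (sup_le_sup_right plane1 _)) (h2 0 1)
  · exact le_trans (Submodule.finrank_mono (sup_le_sup_right plane2 _)) (h2 0 1)

theorem crs_det : (∑ k, (X k : MvPolynomial (Fin 3) K) •
    ((crs K k).map C : Matrix (Fin 3) (Fin 3) (MvPolynomial (Fin 3) K))).det = 0 := by
  rw [Matrix.det_fin_three]
  simp [Fin.sum_univ_three, crs, Matrix.add_apply, Matrix.smul_apply]
  ring

end Pool.Agent.W981.Hyp
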