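import Pool.Agent.W981.Hyp.Reduce
import Pool.Agent.W981.Hyp.Sharp

/-!
# From matrix spaces back to families, and the sharpness of the bound
-/

set_option autoImplicit false
set_option linter.unusedSectionVars false

namespace Pool.Agent.W981.Hyp

open Module Matrix MvPolynomial

section back

variable {σ K : Type*} [Field K] [Fintype σ] {m n : Type*} [Fintype m] [Fintype n]

theorem rank_le_gen_of_mem (A : σ → Matrix m n K) {B : Matrix m n K}
    (hB : B ∈ Submodule.span K (Set.range A)) : B.rank ≤ (gen A).rank := by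
  obtain ⟨c, rfl⟩ := (Submodule.mem_span_range_iff_exists_fun K).1 hB
  exact rank_point_le A c

theorem family_codim [CharZero K] (A : σ → Matrix m n K) (R : Set (Matrix m n K))
    (hR : ∀ T ∈ R, T.rank ≤ 1) (B : Matrix m n K) (c : ℕ)
    (hA : ∀ k, A k ∈ Submodule.span K (insert B R))
    (hd : finrank K (Submodule.span K (insert B R)) ≤
      finrank K (Submodule.span K (Set.range A)) + (c + 1)) :
    ∃ U : Submodule K (n → K),
      Fintype.card n + finrank K (im A U) ≤ (gen A).rank + finrank K U + c := by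
  obtain ⟨B', hB', U, hU⟩ := space_codim R hR B c (Submodule.span K (Set.range A))
    (Submodule.span_le.2 (by rintro _ ⟨k, rfl⟩; exact hA k)) hd
  refine ⟨U, ?_⟩
  rw [imS_eq] at hU
  have := rank_le_gen_of_mem A hB'
  omega

end back

section sharp

variable (K : Type*) [Field K]

/-- the rank one matrices -/
def rks : Set (Matrix (Fin 3) (Fin 3) K) :=
  {vecMulVec ![1, -1, 0] ![1, 1, 0], vecMulVec ![1, 1, 0] ![1, -1, 0],
    vecMulVec ![0, 1, -1] ![0, 1, 1], vecMulVec ![0, 1, 1] ![0, 1, -1],
    vecMulVec ![1, 0, -1] ![1, 0, 1], vecMulVec ![1, 0, 1] ![1, 0, -1]}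

theorem rks_rank : ∀ T ∈ rks K, T.rank ≤ 1 := by
  rintro T (rfl | rfl | rfl | rfl | rfl | rfl) <;> exact rank_vecMulVec_le _ _

variable [CharZero K]

theorem rks_crs : ∀ k, crs K k ∈ Submodule.span K (insert 0 (rks K)) := by
  have h2 : (2 : K) ≠ 0 := two_ne_zero
  have key : ∀ P Q : Matrix (Fin 3) (Fin 3) K, P ∈ rks K → Q ∈ rks K → ∀ c : K,
      c • P - c • Q ∈ Submodule.span K (insert 0 (rks K)) := by
    intro P Q hP hQ c
    exact Submodule.sub_mem _
      (Submodule.smul_mem _ _ (Submodule.subset_span (Set.mem_insert_of_mem _ hP)))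
      (Submodule.smul_mem _ _ (Submodule.subset_span (Set.mem_insert_of_mem _ hQ)))
  intro k
  fin_cases k
  · have := key (vecMulVec ![0, 1, -1] ![0, 1, 1]) (vecMulVec ![0, 1, 1] ![0, 1, -1])
      (by simp [rks]) (by simp [rks]) (-(1/2))
    convert this using 1
    ext i j
    fin_cases i <;> fin_cases j <;> simp [crs] <;> ring
  · have := key (vecMulVec ![1, 0, -1] ![1, 0, 1]) (vecMulVec ![1, 0, 1] ![1, 0, -1])
      (by simp [rks]) (by simp [rks]) (1/2)
    convert this using 1
    ext i j
    fin_cases i <;> fin_cases j <;> simp [crs] <;> ring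
  · have := key (vecMulVec ![1, -1, 0] ![1, 1, 0]) (vecMulVec ![1, 1, 0] ![1, -1, 0])
      (by simp [rks]) (by simp [rks]) (-(1/2))
    convert this using 1
    ext i j
    fin_cases i <;> fin_cases j <;> simp [crs] <;> ring

/-- two diagonal matrices -/
def dgs : Fin 2 → Matrix (Fin 3) (Fin 3) K
  | 0 => !![1, 0, 0; 0, -1, 0; 0, 0, 0]
  | 1 => !![0, 0, 0; 0, 1, 0; 0, 0, -1]

omit [CharZero K] in
theorem rks_le : Submodule.span K (insert 0 (rks K)) ≤
    Submodule.span K (Set.range (crs K)) ⊔ Submodule.span K (Set.range (dgs K)) := by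
  have key : ∀ (a b : K) (k : Fin 3) (c : K), a • dgs K 0 + b • dgs K 1 + c • crs K k ∈
      Submodule.span K (Set.range (crs K)) ⊔ Submodule.span K (Set.range (dgs K)) := by
    intro a b k c
    refine Submodule.add_mem _ (Submodule.add_mem _ ?_ ?_) ?_
    · exact Submodule.mem_sup_right (Submodule.smul_mem _ _ (Submodule.subset_span ⟨0, rfl⟩))
    · exact Submodule.mem_sup_right (Submodule.smul_mem _ _ (Submodule.subset_span ⟨1, rfl⟩))
    · exact Submodule.mem_sup_left (Submodule.smul_mem _ _ (Submodule.subset_span ⟨k, rfl⟩))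
  refine Submodule.span_le.2 ?_
  rintro T (rfl | rfl | rfl | rfl | rfl | rfl | rfl)
  · exact Submodule.zero_mem _
  · have := key 1 0 2 (-1)
    rw [SetLike.mem_coe]
    convert this using 1
    ext i j
    fin_cases i <;> fin_cases j <;> simp [crs, dgs, vecMulVec_apply]
  · have := key 1 0 2 1
    rw [SetLike.mem_coe]
    convert this using 1
    ext i j
    fin_cases i <;> fin_cases j <;> simp [crs, dgs, vecMulVec_apply]
  · have := key 0 1 0 (-1)
    rw [SetLike.mem_coe]
    convert this using 1
    ext i j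
    fin_cases i <;> fin_cases j <;> simp [crs, dgs, vecMulVec_apply]
  · have := key 0 1 0 1
    rw [SetLike.mem_coe]
    convert this using 1
    ext i j
    fin_cases i <;> fin_cases j <;> simp [crs, dgs, vecMulVec_apply]
  · have := key 1 1 1 1
    rw [SetLike.mem_coe]
    convert this using 1
    ext i j
    fin_cases i <;> fin_cases j <;> simp [crs, dgs, vecMulVec_apply]
  · have := key 1 1 1 (-1)
    rw [SetLike.mem_coe]
    convert this using 1
    ext i j
    fin_cases i <;> fin_cases j <;> simp [crs, dgs, vecMulVec_apply]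

omit [CharZero K] in
theorem rks_dim : finrank K (Submodule.span K (insert 0 (rks K))) ≤
    finrank K (Submodule.span K (Set.range (crs K))) + 2 := by
  refine (Submodule.finrank_mono (rks_le K)).trans
    ((Submodule.finrank_add_le_finrank_add_finrank _ _).trans (Nat.add_le_add_left ?_ _))
  have := finrank_range_le_card (R := K) (dgs K)
  rwa [Fintype.card_fin] at this

end sharp

end Pool.Agent.W981.Hyp
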