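import Pool.Agent.W981.Hyp.Core

/-!
# The second order argument, conclusion
-/

set_option autoImplicit false
set_option linter.unusedSectionVars false

namespace Pool.Agent.W981.Hyp

open Module Matrix MvPolynomial

section core

variable {K F : Type*} [Field K] [Field F] [Algebra K F] {n m J : Type*} [Fintype n]
    [Fintype m] {X : Submodule K (n → K)} {L : Matrix m n F} {w : m → F} {z : n → F}
    {α : J → K} {u : J → m → K} {v : J → n → K} {Δ : J → Derivation K F F}

namespace Core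

theorem ga' (h : Core X L w z α u v Δ) {z' : n → F} (hz' : z' ∈ ext F X) (hL' : L *ᵥ z' = 0)
    (i j : J) : algebraMap K F (α i)⁻¹ * (up F (v i) ⬝ᵥ z') * (w ⬝ᵥ up F (u i)) =
      algebraMap K F (α j)⁻¹ * (up F (v j) ⬝ᵥ z') * (w ⬝ᵥ up F (u j)) := by
  have h0 := h.hL i j z'
  rw [hL', dv_zero] at h0
  have h1 := congrArg (fun y => w ⬝ᵥ y) h0
  simp only [dotProduct_add, dotProduct_sub, dotProduct_smul, smul_eq_mul, dotProduct_zero] at h1
  rw [h.hw _ (dv_mem _ hz'), zero_add] at h1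
  exact (sub_eq_zero.1 h1.symm)

/-- other derivations -/
theorem deriv_zero (h : Core X L w z α u v Δ) (D : Derivation K F F) (M : (n → F) → m → F)
    (hD : ∀ y, dv D (L *ᵥ y) = L *ᵥ dv D y + M y) (hM : ∀ y ∈ ext F X, w ⬝ᵥ M y = 0) (i j : J) :
    D (gg F z α v i / gg F z α v j) = 0 := by
  have h1 := hD (dv (Δ i - Δ j) z)
  rw [h.L_dv, dv_neg, dv_sub, dv_smul_up, dv_smul_up] at h1
  have h2 := congrArg (fun y => w ⬝ᵥ y) h1
  simp only [dotProduct_neg, dotProduct_sub, dotProduct_smul, dotProduct_add, smul_eq_mul] at h2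
  rw [h.hw _ (dv_mem _ (dv_mem _ h.hzX)), zero_add, hM _ (dv_mem _ h.hzX), neg_eq_zero,
    sub_eq_zero] at h2
  rw [log_quot _ (h.g_ne i) (h.g_ne j)]
  have h3 := h.ga i j
  have e1 : D (gg F z α v i) / gg F z α v i = D (gg F z α v j) / gg F z α v j := by
    rw [div_eq_div_iff (h.g_ne i) (h.g_ne j)]
    have h4 : (w ⬝ᵥ up F (u i)) * (D (gg F z α v i) * gg F z α v j) =
        (w ⬝ᵥ up F (u i)) * (D (gg F z α v j) * gg F z α v i) := by
      calc (w ⬝ᵥ up F (u i)) * (D (gg F z α v i) * gg F z α v j)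
          = (D (gg F z α v i) * (w ⬝ᵥ up F (u i))) * gg F z α v j := by ring
        _ = D (gg F z α v j) * (gg F z α v j * (w ⬝ᵥ up F (u j))) := by rw [h2]; ring
        _ = _ := by rw [← h3]; ring
    exact mul_left_cancel₀ (h.a_ne i) h4
  rw [e1, sub_self, mul_zero]

/-- If the ratios are constants, then all functionals agree. -/
theorem agree (h : Core X L w z α u v Δ) (hX : X = hull K (LinearMap.ker L.mulVecLin))
    (hK : ∀ i j, ∃ c : K, gg F z α v i / gg F z α v j = algebraMap K F c) {y : n → F}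
    (hy : y ∈ ext F X) (i j : J) :
    algebraMap K F (α i)⁻¹ * (up F (v i) ⬝ᵥ y) * (w ⬝ᵥ up F (u i)) =
      algebraMap K F (α j)⁻¹ * (up F (v j) ⬝ᵥ y) * (w ⬝ᵥ up F (u j)) := by
  obtain ⟨c, hc⟩ := hK i j
  -- a constant functional which vanishes on the kernel
  have hc' : gg F z α v i = algebraMap K F c * gg F z α v j := by
    rw [← hc, div_mul_cancel₀ _ (h.g_ne j)]
  have hac : w ⬝ᵥ up F (u j) = algebraMap K F c * (w ⬝ᵥ up F (u i)) := by
    have h1 := h.ga i j
    rw [hc'] at h1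
    have h2 : gg F z α v j * (w ⬝ᵥ up F (u j)) =
        gg F z α v j * (algebraMap K F c * (w ⬝ᵥ up F (u i))) := by
      rw [← h1]; ring
    exact mul_left_cancel₀ (h.g_ne j) h2
  set ψ : n → K := (α i)⁻¹ • v i - (c * (α j)⁻¹) • v j with hψ
  have hup : ∀ y : n → F, up F ψ ⬝ᵥ y = algebraMap K F (α i)⁻¹ * (up F (v i) ⬝ᵥ y) -
      algebraMap K F c * (algebraMap K F (α j)⁻¹ * (up F (v j) ⬝ᵥ y)) := by
    intro y
    have e1 : up F ψ = algebraMap K F (α i)⁻¹ • up F (v i) -
        (algebraMap K F c * algebraMap K F (α j)⁻¹) • up F (v j) := by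
      funext a
      simp [up, hψ]
    rw [e1, sub_dotProduct, smul_dotProduct, smul_dotProduct, smul_eq_mul, smul_eq_mul]
    ring
  have hψX : ∀ x ∈ X, ψ ⬝ᵥ x = 0 := by
    intro x hx
    rw [hX] at hx
    refine hx ψ fun z' hz' => ?_
    have hz1 : L *ᵥ z' = 0 := hz'
    have hzX' : z' ∈ ext F X := by
      rw [hX]
      exact le_ext_hull _ hz'
    have h3 := h.ga' hzX' hz1 i j
    rw [hup]
    rw [hac] at h3
    have h4 : (w ⬝ᵥ up F (u i)) * (algebraMap K F (α i)⁻¹ * (up F (v i) ⬝ᵥ z') -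
        algebraMap K F c * (algebraMap K F (α j)⁻¹ * (up F (v j) ⬝ᵥ z'))) = 0 := by
      linear_combination h3
    exact (mul_eq_zero.1 h4).resolve_left (h.a_ne i)
  have h5 := dot_of_mem hy hψX
  rw [hup, sub_eq_zero] at h5
  rw [h5, hac]
  ring

end Core

end core

section families

variable {σ K : Type*} [Field K] [DecidableEq σ] [Fintype σ] {n m : Type*} [Fintype n] [Fintype m]

theorem dv_gen (A : σ → Matrix m n K) (D : Derivation K (FF σ K) (FF σ K)) (y : n → FF σ K) :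
    dv D (gen A *ᵥ y) = gen A *ᵥ dv D y +
      ∑ k, D (tt K k) • ((A k).map (algebraMap K (FF σ K)) *ᵥ y) := by
  rw [gen_mulVec, gen_mulVec, ← Finset.sum_add_distrib]
  funext a
  change D ((∑ k, tt K k • ((A k).map (algebraMap K (FF σ K)) *ᵥ y)) a) = _
  rw [Finset.sum_apply, map_sum, Finset.sum_apply]
  refine Finset.sum_congr rfl fun k _ => ?_
  have h1 := congrFun (dv_const_mulVec D (A k) y) a
  change D (((A k).map (algebraMap K (FF σ K)) *ᵥ y) a) = _ at h1
  rw [Pi.smul_apply, smul_eq_mul, D.leibniz, h1, Pi.add_apply, Pi.smul_apply, Pi.smul_apply,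
    smul_eq_mul, smul_eq_mul, smul_eq_mul]
  ring

theorem dv_gen_single (A : σ → Matrix m n K) (k : σ) (y : n → FF σ K) :
    dv (dF k) (gen A *ᵥ y) = gen A *ᵥ dv (dF k) y + (A k).map (algebraMap K (FF σ K)) *ᵥ y := by
  rw [dv_gen, Finset.sum_eq_single k]
  · rw [dF_tt, if_pos rfl, one_smul]
  · intro b _ hb
    rw [dF_tt, if_neg hb, zero_smul]
  · intro hk
    exact absurd (Finset.mem_univ _) hk

/-- the Euler derivation -/
noncomputable def euler (σ K : Type*) [Field K] [Fintype σ] : Derivation K (FF σ K) (FF σ K) :=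
  ∑ k, tt K k • dF k

theorem euler_apply (f : FF σ K) : euler σ K f = ∑ k, tt K k * dF k f := by
  have h := map_sum (Derivation.coeFnAddMonoidHom (R := K) (A := FF σ K) (M := FF σ K))
    (fun k => tt K k • (dF k : Derivation K (FF σ K) (FF σ K))) Finset.univ
  have h2 := congrFun h f
  rw [Finset.sum_apply] at h2
  exact h2

theorem euler_tt (j : σ) : euler σ K (tt K j) = tt K j := by
  rw [euler_apply, Finset.sum_eq_single j]
  · rw [dF_tt, if_pos rfl, mul_one]
  · intro b _ hb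
    rw [dF_tt, if_neg (Ne.symm hb), mul_zero]
  · intro hk
    exact absurd (Finset.mem_univ _) hk

theorem dv_gen_euler (A : σ → Matrix m n K) (y : n → FF σ K) :
    dv (euler σ K) (gen A *ᵥ y) = gen A *ᵥ dv (euler σ K) y + gen A *ᵥ y := by
  rw [dv_gen]
  congr 1
  rw [gen_mulVec]
  simp only [euler_tt]

theorem dF_const (k : σ) : ConstCoeff (dF k : Derivation K (FF σ K) (FF σ K)) := by
  intro j
  refine ⟨if j = k then 1 else 0, ?_⟩
  rw [dF_tt]
  split_ifs <;> simp

theorem ConstCoeff.smul {D : Derivation K (FF σ K) (FF σ K)} (h : ConstCoeff D) (c : K) :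
    ConstCoeff (c • D) := by
  intro j
  obtain ⟨d, hd⟩ := h j
  refine ⟨c * d, ?_⟩
  rw [Derivation.smul_apply, hd, map_mul, Algebra.smul_def]

theorem ConstCoeff.sub {D D' : Derivation K (FF σ K) (FF σ K)} (h : ConstCoeff D)
    (h' : ConstCoeff D') : ConstCoeff (D - D') := by
  intro j
  obtain ⟨d, hd⟩ := h j
  obtain ⟨d', hd'⟩ := h' j
  refine ⟨d - d', ?_⟩
  rw [Derivation.sub_apply, hd, hd', map_sub]

theorem ConstCoeff.zero : ConstCoeff (0 : Derivation K (FF σ K) (FF σ K)) := by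
  intro j
  exact ⟨0, by rw [Derivation.zero_apply, map_zero]⟩

/-- first order -/
theorem first_order (A : σ → Matrix m n K) {X : Submodule K (n → K)} {w : m → FF σ K}
    (hw : ∀ y ∈ ext (FF σ K) X, w ⬝ᵥ (gen A *ᵥ y) = 0) {z : n → FF σ K}
    (hz : z ∈ ext (FF σ K) X) (hz0 : gen A *ᵥ z = 0) (k : σ) :
    w ⬝ᵥ ((A k).map (algebraMap K (FF σ K)) *ᵥ z) = 0 := by
  have h1 := dv_gen_single A k z
  rw [hz0, dv_zero] at h1
  have h2 := congrArg (fun y => w ⬝ᵥ y) h1
  simp only [dotProduct_zero, dotProduct_add] at h2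
  rw [hw _ (dv_mem _ hz), zero_add] at h2
  exact h2.symm

/-- a functional which vanishes on the hull if it vanishes on the kernel -/
theorem vanish {L : Matrix m n (FF σ K)} {X : Submodule K (n → K)}
    (hX : X = hull K (LinearMap.ker L.mulVecLin)) {ψ : n → K}
    (h : ∀ z, L *ᵥ z = 0 → up (FF σ K) ψ ⬝ᵥ z = 0) {y : n → FF σ K}
    (hy : y ∈ ext (FF σ K) X) : up (FF σ K) ψ ⬝ᵥ y = 0 := by
  refine dot_of_mem hy fun x hx => ?_
  rw [hX] at hx
  exact hx ψ fun z hz => h z hz

end families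

end Pool.Agent.W981.Hyp
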