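import Pool.Agent.W981.Hyp.Main

/-!
# Families of rank at most one up to a border
-/

set_option autoImplicit false
set_option linter.unusedSectionVars false

namespace Pool.Agent.W981.Hyp

open Module Matrix MvPolynomial

section perp

variable {K : Type*} [Field K] {n m : Type*} [Fintype n] [Fintype m] [DecidableEq n]
  [DecidableEq m]

/-- the orthogonal space -/
def perp (W : Submodule K (n → K)) : Submodule K (n → K) where
  carrier := {ψ | ∀ w ∈ W, ψ ⬝ᵥ w = 0}
  add_mem' := by
    intro a b ha hb w hw
    rw [add_dotProduct, ha w hw, hb w hw, add_zero]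
  zero_mem' := by
    intro w _
    rw [zero_dotProduct]
  smul_mem' := by
    intro c a ha w hw
    rw [smul_dotProduct, ha w hw, smul_zero]

theorem finrank_perp (W : Submodule K (n → K)) :
    finrank K (perp W) + finrank K W = Fintype.card n := by
  obtain ⟨P, h1, h2⟩ := exists_proj W
  have e1 : LinearMap.range P.mulVecLin = W := by
    ext x
    constructor
    · rintro ⟨y, rfl⟩
      exact h2 y
    · intro hx
      exact ⟨x, h1 x hx⟩
  have e2 : LinearMap.ker Pᵀ.mulVecLin = perp W := by
    ext ψ
    rw [LinearMap.mem_ker, mulVecLin_apply, mulVec_transpose]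
    constructor
    · intro h w hw
      rw [← h1 w hw, dotProduct_mulVec, h, zero_dotProduct]
    · intro h
      funext a
      have h3 := h (P *ᵥ Pi.single a 1) (h2 _)
      rw [dotProduct_mulVec, dotProduct_single, mul_one] at h3
      exact h3
  have h3 := LinearMap.finrank_range_add_finrank_ker Pᵀ.mulVecLin
  rw [e2, finrank_fintype_fun_eq_card] at h3
  have h4 : Pᵀ.rank = P.rank := Matrix.rank_transpose P
  rw [Matrix.rank, Matrix.rank, e1] at h4
  omega

theorem perp_anti {W W' : Submodule K (n → K)} (h : W ≤ W') : perp W' ≤ perp W :=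
  fun _ hψ w hw => hψ w (h hw)

theorem exists_succ {H : Submodule K (n → K)} (hH : H ≠ ⊤) :
    ∃ H1, H ≤ H1 ∧ finrank K H1 = finrank K H + 1 := by
  obtain ⟨e, he⟩ : ∃ e, e ∉ H := by
    by_contra hcon
    push Not at hcon
    exact hH (eq_top_iff.2 fun x _ => hcon x)
  refine ⟨H ⊔ Submodule.span K {e}, le_sup_left, ?_⟩
  have h1 : H < H ⊔ Submodule.span K {e} := by
    refine lt_of_le_of_ne le_sup_left fun h0 => he ?_
    rw [h0]
    exact Submodule.mem_sup_right (Submodule.mem_span_singleton_self _)
  have h2 := Submodule.finrank_lt_finrank_of_lt h1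
  have h3 := Submodule.finrank_add_le_finrank_add_finrank H (Submodule.span K {e})
  have h4 := finrank_span_le_card (R := K) (M := n → K) ({e} : Set (n → K))
  rw [Set.toFinset_singleton, Finset.card_singleton] at h4
  omega

end perp

variable {σ K : Type*} [Field K] [DecidableEq σ] [Fintype σ] {n m : Type*} [Fintype n] [Fintype m]
  [DecidableEq n] [DecidableEq m]

theorem gen_transpose (A : σ → Matrix m n K) : gen (fun k => (A k)ᵀ) = (gen A)ᵀ := by
  rw [gen, gen, Matrix.transpose_sum]
  refine Finset.sum_congr rfl fun k _ => ?_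
  rw [Matrix.transpose_smul, Matrix.transpose_map]

theorem gen_mul (A : σ → Matrix m n K) (Φ : Matrix m m K) :
    gen (fun k => Φ * A k) = Φ.map (algebraMap K (FF σ K)) * gen A := by
  rw [gen, gen, Matrix.mul_sum]
  refine Finset.sum_congr rfl fun k _ => ?_
  rw [Matrix.map_mul, Matrix.mul_smul]

theorem upper (A : σ → Matrix m n K) (U : Submodule K (n → K)) :
    (gen A).rank + finrank K U ≤ Fintype.card n + finrank K (im A U) := by
  have h1 := finrank_map_add (gen A).mulVecLin (ext (FF σ K) U)
  have h2 := Submodule.finrank_mono (map_gen_le A U)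
  have h3 : finrank (FF σ K) (LinearMap.ker (gen A).mulVecLin ⊓ ext (FF σ K) U :
      Submodule (FF σ K) (n → FF σ K)) ≤ finrank (FF σ K) (LinearMap.ker (gen A).mulVecLin) :=
    Submodule.finrank_mono inf_le_left
  have h4 := LinearMap.finrank_range_add_finrank_ker (gen A).mulVecLin
  rw [finrank_fintype_fun_eq_card] at h4
  change (gen A).rank + _ = _ at h4
  rw [finrank_ext] at h1 h2
  omega

theorem col_border {A : σ → Matrix m n K} {H H1 : Submodule K (n → K)} (hle : H ≤ H1)
    (hc : finrank K H1 ≤ finrank K H + 1) {Ω : Submodule K (m → K)}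
    (h1 : ∀ k, finrank K (H.map (A k).mulVecLin ⊔ Ω : Submodule K (m → K)) ≤ finrank K Ω + 1) :
    ∃ X : Submodule K (n → K), finrank K H1 + finrank K (im A X) ≤
      (gen A).rank + finrank K X + finrank K Ω := by
  obtain ⟨Φ, hΦ1, hΦ2⟩ := exists_ker Ω
  have hker : LinearMap.ker Φ.mulVecLin = Ω := by
    ext y
    rw [LinearMap.mem_ker, mulVecLin_apply]
    constructor
    · intro h
      have := hΦ2 y
      rwa [h, sub_zero] at this
    · exact hΦ1 y
  have h2 : ∀ k, finrank K (H.map (Φ * A k).mulVecLin) ≤ 1 := by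
    intro k
    have h3 := finrank_map_add Φ.mulVecLin (H.map (A k).mulVecLin ⊔ Ω)
    rw [hker, inf_eq_left.2 le_sup_right] at h3
    have h4 : H.map (Φ * A k).mulVecLin ≤ (H.map (A k).mulVecLin ⊔ Ω).map Φ.mulVecLin := by
      rintro _ ⟨x, hx, rfl⟩
      refine ⟨A k *ᵥ x, Submodule.mem_sup_left ⟨x, hx, rfl⟩, ?_⟩
      rw [mulVecLin_apply, mulVecLin_apply, mulVec_mulVec]
    have h5 := Submodule.finrank_mono h4
    have h6 := h1 k
    omega
  obtain ⟨X, -, hX⟩ := main (A := fun k => Φ * A k) hle hc h2
  refine ⟨X, ?_⟩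
  have h3 := finrank_map_add Φ.mulVecLin (im A X)
  rw [hker] at h3
  have h4 := Submodule.finrank_mono (inf_le_left : Ω ⊓ im A X ≤ Ω)
  have h5 : (im A X).map Φ.mulVecLin ≤ im (fun k => Φ * A k) X := by
    rw [Submodule.map_le_iff_le_comap, im_le]
    intro k u hu
    rw [Submodule.mem_comap, mulVecLin_apply, mulVec_mulVec]
    exact mem_im (A := fun k => Φ * A k) hu k
  have h6 := Submodule.finrank_mono h5
  have h7 : (ext (FF σ K) H1).map (gen fun k => Φ * A k).mulVecLin ≤
      (LinearMap.range (gen A).mulVecLin).map (Φ.map (algebraMap K (FF σ K))).mulVecLin := by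
    rintro _ ⟨z, hz, rfl⟩
    refine ⟨gen A *ᵥ z, ⟨z, rfl⟩, ?_⟩
    rw [mulVecLin_apply, mulVecLin_apply, mulVec_mulVec, gen_mul]
  have h8 := Submodule.finrank_mono h7
  have h9 := Submodule.finrank_map_le (Φ.map (algebraMap K (FF σ K))).mulVecLin
    (LinearMap.range (gen A).mulVecLin)
  change _ ≤ (gen A).rank at h9
  omega

/-- Duality. -/
theorem dual_cert {A : σ → Matrix m n K} {X' : Submodule K (m → K)} {c : ℕ}
    (h : Fintype.card m + finrank K (im (fun k => (A k)ᵀ) X') ≤ c + finrank K X') :
    ∃ X : Submodule K (n → K), Fintype.card n + finrank K (im A X) ≤ c + finrank K X := by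
  refine ⟨perp (im (fun k => (A k)ᵀ) X'), ?_⟩
  have h1 := finrank_perp (im (fun k => (A k)ᵀ) X')
  have h2 := finrank_perp X'
  have h3 : im A (perp (im (fun k => (A k)ᵀ) X')) ≤ perp X' := by
    rw [im_le]
    intro k u hu w hw
    have h4 := hu _ (mem_im (A := fun k => (A k)ᵀ) hw k)
    rw [mulVec_transpose, dotProduct_comm, ← dotProduct_mulVec, dotProduct_comm] at h4
    exact h4
  have h4 := Submodule.finrank_mono h3
  omega

/-- **Families of rank at most one up to a border of total width `w`.** -/
theorem border (A : σ → Matrix m n K) (H : Submodule K (n → K)) (Ω : Submodule K (m → K)) (w : ℕ)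
    (hw : 1 ≤ w) (hH : Fintype.card n + finrank K Ω ≤ finrank K H + w)
    (h1 : ∀ k, finrank K (H.map (A k).mulVecLin ⊔ Ω : Submodule K (m → K)) ≤ finrank K Ω + 1) :
    ∃ X : Submodule K (n → K), Fintype.card n + finrank K (im A X) + 1 ≤
      (gen A).rank + finrank K X + w := by
  by_cases hHt : H = ⊤
  · subst hHt
    rw [finrank_top, finrank_fintype_fun_eq_card] at hH
    by_cases hΩ : Ω = ⊥
    · subst hΩ
      obtain ⟨X, hX⟩ := col_border (H := ⊤) (H1 := ⊤) le_rfl (Nat.le_succ _) h1
      rw [finrank_top, finrank_fintype_fun_eq_card, finrank_bot] at hX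
      exact ⟨X, by omega⟩
    · -- transpose
      have hp := finrank_perp Ω
      have hpt : perp Ω ≠ ⊤ := by
        intro h0
        rw [h0, finrank_top, finrank_fintype_fun_eq_card] at hp
        have : finrank K Ω = 0 := by omega
        exact hΩ (Submodule.finrank_eq_zero.1 this)
      obtain ⟨H1, hle, hH1⟩ := exists_succ hpt
      have h2 : ∀ k, finrank K ((perp Ω).map ((A k)ᵀ).mulVecLin ⊔ ⊥ : Submodule K (n → K)) ≤
          finrank K (⊥ : Submodule K (n → K)) + 1 := by
        intro k
        rw [sup_bot_eq, finrank_bot, zero_add]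
        have h3 := finrank_map_add ((A k)ᵀ).mulVecLin (perp Ω)
        have h4 := finrank_perp ((⊤ : Submodule K (n → K)).map (A k).mulVecLin ⊔ Ω)
        have h5 : perp ((⊤ : Submodule K (n → K)).map (A k).mulVecLin ⊔ Ω) ≤
            LinearMap.ker ((A k)ᵀ).mulVecLin ⊓ perp Ω := by
          refine le_inf (fun ψ hψ => ?_) (perp_anti le_sup_right)
          rw [LinearMap.mem_ker, mulVecLin_apply, mulVec_transpose]
          funext a
          have h6 := hψ (A k *ᵥ Pi.single a 1) (Submodule.mem_sup_left ⟨_, trivial, rfl⟩)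
          rw [dotProduct_mulVec, dotProduct_single, mul_one] at h6
          exact h6
        have h6 := Submodule.finrank_mono h5
        have h7 := h1 k
        omega
      obtain ⟨X', hX'⟩ := col_border (A := fun k => (A k)ᵀ) hle hH1.le h2
      rw [finrank_bot, gen_transpose, Matrix.rank_transpose] at hX'
      obtain ⟨X, hX⟩ := dual_cert (A := A) (X' := X') (c := (gen A).rank + (w - 1)) (by omega)
      exact ⟨X, by omega⟩
  · obtain ⟨H1, hle, hH1⟩ := exists_succ hHt
    obtain ⟨X, hX⟩ := col_border hle hH1.le h1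
    exact ⟨X, by omega⟩

section det

theorem det_eq_zero_iff_rank {F : Type*} [Field F] (M : Matrix n n F) :
    M.det = 0 ↔ M.rank < Fintype.card n := by
  constructor
  · intro h
    obtain ⟨v, hv, hMv⟩ := Matrix.exists_mulVec_eq_zero_iff.2 h
    have h1 := LinearMap.finrank_range_add_finrank_ker M.mulVecLin
    rw [finrank_fintype_fun_eq_card] at h1
    change M.rank + _ = _ at h1
    have h2 : finrank F (LinearMap.ker M.mulVecLin) ≠ 0 := by
      intro h0
      rw [Submodule.finrank_eq_zero] at h0
      have : v ∈ LinearMap.ker M.mulVecLin := hMv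
      rw [h0, Submodule.mem_bot] at this
      exact hv this
    omega
  · intro h
    by_contra h0
    have := Matrix.rank_of_isUnit M ((Matrix.isUnit_iff_isUnit_det M).2 (isUnit_iff_ne_zero.2 h0))
    omega

end det

end Pool.Agent.W981.Hyp
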