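import Pool.Agent.W981.Hyp.Section

/-!
# From families to matrix spaces
-/

set_option autoImplicit false
set_option linter.unusedSectionVars false

namespace Pool.Agent.W981.Hyp

open Module Matrix MvPolynomial

section minor

variable {F : Type*} [Field F] {m n : Type*} [Fintype m] [Fintype n]

theorem exists_rows (B : Matrix m n F) :
    ∃ e : Fin B.rank → m, LinearIndependent F (B.submatrix e id).row := by
  have h := Submodule.exists_fun_fin_finrank_span_eq F (Set.range B.row)
  rw [← B.rank_eq_finrank_span_row] at h
  obtain ⟨f, hf, -, hli⟩ := h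
  choose e he using hf
  refine ⟨e, ?_⟩
  have : (B.submatrix e id).row = f := by
    funext i
    rw [← he i]
    rfl
  rw [this]
  exact hli

theorem exists_minor (B : Matrix m n F) :
    ∃ (e : Fin B.rank → m) (f : Fin B.rank → n), (B.submatrix e f).det ≠ 0 := by
  obtain ⟨e, he⟩ := exists_rows B
  have h1 : (B.submatrix e id).rank = B.rank := by
    rw [he.rank_matrix, Fintype.card_fin]
  have h2 : (B.submatrix e id).transpose.rank = B.rank := by
    rw [Matrix.rank_transpose, h1]
  obtain ⟨f, hf⟩ := exists_rows (B.submatrix e id).transpose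
  refine ⟨e, f ∘ finCongr h2.symm, ?_⟩
  have h3 : LinearIndependent F (B.submatrix e (f ∘ finCongr h2.symm)).transpose.row := by
    have := hf.comp (finCongr h2.symm) (finCongr h2.symm).injective
    exact this
  have h4 := Matrix.linearIndependent_rows_iff_isUnit.1 h3
  rw [Matrix.isUnit_iff_isUnit_det, Matrix.det_transpose] at h4
  exact h4.ne_zero

theorem le_rank_of_minor {r : ℕ} (B : Matrix m n F)
    (e : Fin r → m) (f : Fin r → n) (h : (B.submatrix e f).det ≠ 0) : r ≤ B.rank := by
  have h1 := Matrix.rank_of_det_ne_zero h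
  rw [Fintype.card_fin] at h1
  rw [← h1]
  exact Matrix.rank_submatrix_le B e f

end minor

section point

variable {σ K : Type*} [Field K] [Fintype σ] {m n : Type*} [Fintype m] [Fintype n]

/-- the symbolic matrix -/
noncomputable def sym (A : σ → Matrix m n K) : Matrix m n (MvPolynomial σ K) :=
  ∑ k, (X k : MvPolynomial σ K) • (A k).map C

theorem gen_eq_sym (A : σ → Matrix m n K) :
    gen A = (sym A).map (algebraMap (MvPolynomial σ K) (FF σ K)) := by
  classical
  ext i j
  simp only [sym, gen, Matrix.map_apply, Matrix.sum_apply, Matrix.smul_apply,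
    map_sum, smul_eq_mul, map_mul, Pool.Agent.W981.Hyp.algebraMap_C, tt]

theorem eval_sym (A : σ → Matrix m n K) (c : σ → K) :
    (sym A).map (eval c) = ∑ k, c k • A k := by
  ext i j
  simp only [sym, Matrix.map_apply, Matrix.sum_apply, Matrix.smul_apply,
    map_sum, smul_eq_mul, map_mul, eval_X, eval_C]

theorem det_gen_sub (A : σ → Matrix m n K) {r : ℕ} (e : Fin r → m) (f : Fin r → n) :
    ((gen A).submatrix e f).det =
      algebraMap (MvPolynomial σ K) (FF σ K) ((sym A).submatrix e f).det := by
  rw [gen_eq_sym, RingHom.map_det]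
  rfl

theorem det_eval_sub (A : σ → Matrix m n K) (c : σ → K) {r : ℕ} (e : Fin r → m) (f : Fin r → n) :
    ((∑ k, c k • A k).submatrix e f).det = eval c ((sym A).submatrix e f).det := by
  rw [← eval_sym, RingHom.map_det]
  rfl

theorem exists_point [Infinite K] (A : σ → Matrix m n K) :
    ∃ c : σ → K, (gen A).rank ≤ (∑ k, c k • A k).rank := by
  obtain ⟨e, f, h⟩ := exists_minor (gen A)
  rw [det_gen_sub, Ne, FaithfulSMul.algebraMap_eq_zero_iff] at h
  have h2 : ∃ c : σ → K, eval c ((sym A).submatrix e f).det ≠ 0 := by
    by_contra h3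
    push Not at h3
    exact h (MvPolynomial.funext fun c => by rw [h3 c, map_zero])
  obtain ⟨c, hc⟩ := h2
  exact ⟨c, le_rank_of_minor _ e f (by rw [det_eval_sub]; exact hc)⟩

theorem rank_point_le (A : σ → Matrix m n K) (c : σ → K) :
    (∑ k, c k • A k).rank ≤ (gen A).rank := by
  obtain ⟨e, f, h⟩ := exists_minor (∑ k, c k • A k)
  refine le_rank_of_minor _ e f ?_
  rw [det_gen_sub, Ne, FaithfulSMul.algebraMap_eq_zero_iff]
  intro h2
  rw [det_eval_sub, h2, map_zero] at h
  exact h rfl

end point

section spaces

variable {K : Type*} [Field K] {m n : Type*} [Fintype m] [Fintype n]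

/-- the subspace `𝒜 U` -/
def imS (S : Submodule K (Matrix m n K)) (U : Submodule K (n → K)) : Submodule K (m → K) :=
  Submodule.span K {y | ∃ A ∈ S, ∃ x ∈ U, A *ᵥ x = y}

theorem imS_mono {S S' : Submodule K (Matrix m n K)} (h : S ≤ S') (U : Submodule K (n → K)) :
    imS S U ≤ imS S' U := by
  refine Submodule.span_mono ?_
  rintro y ⟨A, hA, x, hx, rfl⟩
  exact ⟨A, h hA, x, hx, rfl⟩

theorem imS_eq {σ : Type*} [Fintype σ] (A : σ → Matrix m n K) (U : Submodule K (n → K)) :
    imS (Submodule.span K (Set.range A)) U = im A U := by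
  classical
  refine le_antisymm ?_ ?_
  · refine Submodule.span_le.2 ?_
    rintro y ⟨B, hB, x, hx, rfl⟩
    refine Submodule.span_induction (p := fun B _ => B *ᵥ x ∈ im A U) ?_ ?_ ?_ ?_ hB
    · rintro _ ⟨k, rfl⟩
      exact mem_im hx k
    · rw [zero_mulVec]
      exact Submodule.zero_mem _
    · intro B C _ _ h1 h2
      rw [add_mulVec]
      exact Submodule.add_mem _ h1 h2
    · intro c B _ h1
      rw [smul_mulVec]
      exact Submodule.smul_mem _ _ h1
  · refine iSup_le fun k => ?_
    rintro _ ⟨x, hx, rfl⟩
    exact Submodule.subset_span ⟨A k, Submodule.subset_span ⟨k, rfl⟩, x, hx, rfl⟩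

theorem space_upper (S : Submodule K (Matrix m n K)) {A : Matrix m n K} (hA : A ∈ S)
    (U : Submodule K (n → K)) : A.rank + finrank K U ≤ Fintype.card n + finrank K (imS S U) := by
  have h1 := finrank_map_add A.mulVecLin U
  have h2 : U.map A.mulVecLin ≤ imS S U := by
    rintro _ ⟨x, hx, rfl⟩
    exact Submodule.subset_span ⟨A, hA, x, hx, rfl⟩
  have h3 := Submodule.finrank_mono h2
  have h4 := Submodule.finrank_mono (inf_le_left : LinearMap.ker A.mulVecLin ⊓ U ≤ _)
  have h5 := LinearMap.finrank_range_add_finrank_ker A.mulVecLin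
  rw [finrank_fintype_fun_eq_card] at h5
  change A.rank + _ = _ at h5
  omega

theorem exists_vecMulVec {T : Matrix m n K} (h : T.rank ≤ 1) : ∃ u v, T = vecMulVec u v := by
  classical
  rw [Matrix.rank, finrank_le_one_iff] at h
  obtain ⟨⟨u, hu⟩, h⟩ := h
  choose c hc using h
  refine ⟨u, fun j => c ⟨T.mulVecLin (Pi.single j 1), LinearMap.mem_range_self _ _⟩, ?_⟩
  ext i j
  have h1 := congrArg Subtype.val (hc ⟨T.mulVecLin (Pi.single j 1), LinearMap.mem_range_self _ _⟩)
  have h2 : c ⟨T.mulVecLin (Pi.single j 1), LinearMap.mem_range_self _ _⟩ * u i =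
      (T *ᵥ Pi.single j 1) i := congrFun h1 i
  rw [vecMulVec_apply, mul_comm, h2, mulVec_single_one, Matrix.col_apply]

theorem ker_inf_eq {V : Type*} [AddCommGroup V] [Module K V] (G : Set V) (α : V →ₗ[K] K) {x0 : V}
    (hx : x0 ∈ Submodule.span K G) (h0 : α x0 ≠ 0) : Submodule.span K G ⊓ LinearMap.ker α =
      Submodule.span K ((fun t => t - (α t / α x0) • x0) '' G) := by
  refine le_antisymm ?_ ?_
  · rintro t ⟨ht, hk⟩
    have h1 : t - (α t / α x0) • x0 ∈
        Submodule.span K ((fun t => t - (α t / α x0) • x0) '' G) := by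
      refine Submodule.span_induction (p := fun t _ => t - (α t / α x0) • x0 ∈
        Submodule.span K ((fun t => t - (α t / α x0) • x0) '' G)) ?_ ?_ ?_ ?_ ht
      · intro y hy
        exact Submodule.subset_span ⟨y, hy, rfl⟩
      · rw [map_zero, zero_div, zero_smul, sub_zero]
        exact Submodule.zero_mem _
      · intro y z _ _ h1 h2
        have : y + z - (α (y + z) / α x0) • x0 =
            (y - (α y / α x0) • x0) + (z - (α z / α x0) • x0) := by
          rw [map_add, add_div, add_smul]
          abel
        rw [this]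
        exact Submodule.add_mem _ h1 h2
      · intro c y _ h1
        have : c • y - (α (c • y) / α x0) • x0 = c • (y - (α y / α x0) • x0) := by
          rw [map_smul, smul_sub, smul_smul, smul_eq_mul, mul_div_assoc]
        rw [this]
        exact Submodule.smul_mem _ _ h1
    have h2 : α t = 0 := hk
    rwa [h2, zero_div, zero_smul, sub_zero] at h1
  · refine Submodule.span_le.2 ?_
    rintro _ ⟨y, hy, rfl⟩
    refine ⟨Submodule.sub_mem _ (Submodule.subset_span hy) (Submodule.smul_mem _ _ hx), ?_⟩
    change α (y - (α y / α x0) • x0) = 0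
    rw [map_sub, map_smul, smul_eq_mul, div_mul_cancel₀ _ h0, sub_self]

theorem family_to_space [Infinite K] {s : ℕ} (A : Fin s → Matrix m n K)
    (S : Submodule K (Matrix m n K)) (hS : Submodule.span K (Set.range A) = S)
    (h : ∃ X : Submodule K (n → K), Fintype.card n + finrank K (im A X) ≤
      (gen A).rank + finrank K X) :
    ∃ B ∈ S, ∃ X : Submodule K (n → K), Fintype.card n + finrank K (imS S X) ≤
      B.rank + finrank K X := by
  obtain ⟨X, hX⟩ := h
  obtain ⟨c, hc⟩ := exists_point A
  refine ⟨∑ k, c k • A k, ?_, X, ?_⟩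
  · rw [← hS]
    exact Submodule.sum_mem _ fun k _ => Submodule.smul_mem _ _ (Submodule.subset_span ⟨k, rfl⟩)
  · rw [← hS, imS_eq]
    omega

theorem space_base [CharZero K] (R : Set (Matrix m n K)) (hR : ∀ T ∈ R, T.rank ≤ 1)
    (B : Matrix m n K) (S : Submodule K (Matrix m n K)) (hS : S ≤ Submodule.span K (insert B R))
    (hd : finrank K (Submodule.span K (insert B R)) ≤ finrank K S + 1) :
    ∃ A ∈ S, ∃ U : Submodule K (n → K),
      Fintype.card n + finrank K (imS S U) ≤ A.rank + finrank K U := by
  classical
  obtain ⟨r, T, hTR, hTs⟩ : ∃ (r : ℕ) (T : Fin r → Matrix m n K), (∀ i, T i ∈ R) ∧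
      Submodule.span K (Set.range T) = Submodule.span K R := by
    obtain ⟨T, hTR, hTs, -⟩ := Submodule.exists_fun_fin_finrank_span_eq K R
    exact ⟨_, T, hTR, hTs⟩
  have hspan : Submodule.span K (insert B R) = Submodule.span K (insert B (Set.range T)) := by
    rw [Submodule.span_insert, Submodule.span_insert, hTs]
  rw [hspan] at hS hd
  have huv : ∀ k, ∃ u v, T k = vecMulVec u v := fun k => exists_vecMulVec (hR _ (hTR k))
  choose u v huv using huv
  by_cases hST : S = Submodule.span K (insert B (Set.range T))
  · -- the whole space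
    refine family_to_space (Fin.cons B T : Fin (r + 1) → Matrix m n K) S ?_ ?_
    · rw [hST, Fin.range_cons]
    · refine caseA _ B (Fin.cons 1 0) (Fin.cons 0 u) (Fin.cons 0 v) fun k => ?_
      refine Fin.cases ?_ (fun i => ?_) k
      · simp
      · simp [huv i]
  · obtain ⟨x, hx, hxS⟩ := SetLike.exists_of_lt (lt_of_le_of_ne hS hST)
    obtain ⟨α, hαx, hSα⟩ := Submodule.exists_le_ker_of_notMem hxS
    have hSeq : S = Submodule.span K (insert B (Set.range T)) ⊓ LinearMap.ker α := by
      refine Submodule.eq_of_le_of_finrank_le (le_inf hS hSα) ?_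
      have h1 : Submodule.span K (insert B (Set.range T)) ⊓ LinearMap.ker α <
          Submodule.span K (insert B (Set.range T)) := by
        refine lt_of_le_of_ne inf_le_left fun h => ?_
        have : x ∈ Submodule.span K (insert B (Set.range T)) ⊓ LinearMap.ker α := by
          rw [h]; exact hx
        exact hαx this.2
      have := Submodule.finrank_lt_finrank_of_lt h1
      omega
    by_cases hαB : α B = 0
    · -- there is a rank one matrix outside
      have h1 : ∃ i, α (T i) ≠ 0 := by
        by_contra h2
        push Not at h2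
        have h3 : Submodule.span K (insert B (Set.range T)) ≤ LinearMap.ker α := by
          refine Submodule.span_le.2 ?_
          rintro y (rfl | ⟨i, rfl⟩)
          · exact hαB
          · exact h2 i
        exact hαx (h3 hx)
      obtain ⟨i0, hi0⟩ := h1
      refine family_to_space (Fin.cons B (fun k => T k - (α (T k) / α (T i0)) • T i0) :
        Fin (r + 1) → Matrix m n K) S ?_ ?_
      · rw [hSeq, ker_inf_eq _ α (x0 := T i0)
          (Submodule.subset_span (Set.mem_insert_of_mem _ (Set.mem_range_self i0))) hi0,
          Fin.range_cons, Set.image_insert_eq, hαB, zero_div, zero_smul, sub_zero, ← Set.range_comp]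
        rfl
      · refine caseB _ 0 (u i0) (v i0) (Fin.cons 0 fun k => -(α (T k) / α (T i0)))
          (Fin.cons 0 u) (Fin.cons 0 v) fun k => ?_
        refine Fin.cases ?_ (fun i => ?_) k
        · intro h
          exact absurd rfl h
        · intro _
          simp only [Fin.cons_succ]
          rw [← huv, ← huv, neg_smul]
          abel
    · refine family_to_space (fun k => T k - (α (T k) / α B) • B) S ?_ ?_
      · rw [hSeq, ker_inf_eq _ α (Submodule.subset_span (Set.mem_insert _ _)) hαB,
          Set.image_insert_eq, div_self hαB, one_smul, sub_self, Submodule.span_insert_zero,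
          ← Set.range_comp]
        rfl
      · refine caseA _ B (fun k => -(α (T k) / α B)) u v fun k => ?_
        rw [← huv, neg_smul]
        abel

theorem finrank_span_one {V : Type*} [AddCommGroup V] [Module K V] (B : V) :
    finrank K (Submodule.span K {B}) ≤ 1 := by
  have := finrank_span_le_card (R := K) ({B} : Set V)
  simpa using this

theorem rank_add_le' (A B : Matrix m n K) : (A + B).rank ≤ A.rank + B.rank := by
  refine le_trans (Submodule.finrank_mono ?_) (Submodule.finrank_add_le_finrank_add_finrank
    (LinearMap.range A.mulVecLin) (LinearMap.range B.mulVecLin))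
  rintro _ ⟨x, rfl⟩
  rw [mulVecLin_apply, add_mulVec]
  exact Submodule.add_mem_sup ⟨x, rfl⟩ ⟨x, rfl⟩

theorem rank_smul_le' (t : K) (A : Matrix m n K) : (t • A).rank ≤ A.rank := by
  refine Submodule.finrank_mono ?_
  rintro _ ⟨x, rfl⟩
  refine ⟨t • x, ?_⟩
  rw [mulVecLin_apply, mulVecLin_apply, mulVec_smul, smul_mulVec]

/-- the general codimension -/
theorem space_codim [CharZero K] (R : Set (Matrix m n K)) (hR : ∀ T ∈ R, T.rank ≤ 1)
    (B : Matrix m n K) (c : ℕ) (S : Submodule K (Matrix m n K))
    (hS : S ≤ Submodule.span K (insert B R))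
    (hd : finrank K (Submodule.span K (insert B R)) ≤ finrank K S + (c + 1)) :
    ∃ A ∈ S, ∃ U : Submodule K (n → K),
      Fintype.card n + finrank K (imS S U) ≤ A.rank + finrank K U + c := by
  induction c generalizing S with
  | zero => exact space_base R hR B S hS hd
  | succ c ih =>
    by_cases h1 : finrank K (Submodule.span K (insert B R)) ≤ finrank K S + (c + 1)
    · obtain ⟨A, hA, U, hU⟩ := ih S hS h1
      exact ⟨A, hA, U, by omega⟩
    · have h2 : ∃ T ∈ R, T ∉ S := by
        by_contra h3
        push Not at h3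
        have h4 : Submodule.span K (insert B R) ≤ S ⊔ Submodule.span K {B} := by
          refine Submodule.span_le.2 ?_
          rintro y (rfl | hy)
          · exact Submodule.mem_sup_right (Submodule.mem_span_singleton_self _)
          · exact Submodule.mem_sup_left (h3 y hy)
        have h5 := (Submodule.finrank_mono h4).trans
          (Submodule.finrank_add_le_finrank_add_finrank _ _)
        have h6 := finrank_span_one (K := K) B
        omega
      obtain ⟨T, hTR, hTS⟩ := h2
      have h3 : S < S ⊔ Submodule.span K {T} := by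
        refine lt_of_le_of_ne le_sup_left fun h => hTS ?_
        rw [h]
        exact Submodule.mem_sup_right (Submodule.mem_span_singleton_self _)
      have h4 := Submodule.finrank_lt_finrank_of_lt h3
      obtain ⟨A, hA, U, hU⟩ := ih (S ⊔ Submodule.span K {T})
        (sup_le hS (Submodule.span_mono (Set.singleton_subset_iff.2 (Set.mem_insert_of_mem _ hTR))))
        (by omega)
      obtain ⟨A', hA', y, hy, rfl⟩ := Submodule.mem_sup.1 hA
      obtain ⟨t, rfl⟩ := Submodule.mem_span_singleton.1 hy
      refine ⟨A', hA', U, ?_⟩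
      have h5 := Submodule.finrank_mono (imS_mono (le_sup_left : S ≤ S ⊔ Submodule.span K {T}) U)
      have h6 : (A' + t • T).rank ≤ A'.rank + 1 := by
        refine (rank_add_le' _ _).trans (Nat.add_le_add_left ?_ _)
        exact (rank_smul_le' _ _).trans (hR T hTR)
      omega

end spaces

end Pool.Agent.W981.Hyp
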