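import Pool.Agent.W981.Hyp.LogDer

/-!
# The second order argument
-/

set_option autoImplicit false
set_option linter.unusedSectionVars false

namespace Pool.Agent.W981.Hyp

open Module Matrix MvPolynomial

section dv

variable {K F : Type*} [Field K] [Field F] [Algebra K F] {n m : Type*} [Fintype n] [Fintype m]

/-- the coordinatewise derivative -/
def dv (D : Derivation K F F) {n : Type*} (z : n → F) : n → F := fun a => D (z a)

theorem dv_zero (D : Derivation K F F) : dv D (0 : n → F) = 0 := by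
  funext a
  exact map_zero D

theorem up_dv (D : Derivation K F F) (ψ : n → K) (z : n → F) :
    up F ψ ⬝ᵥ dv D z = D (up F ψ ⬝ᵥ z) := by
  rw [dotProduct, dotProduct, map_sum]
  refine Finset.sum_congr rfl fun a _ => ?_
  rw [D.leibniz, up, D.map_algebraMap, smul_zero, add_zero, smul_eq_mul]
  rfl

theorem dv_mem (D : Derivation K F F) {W : Submodule K (n → K)} {z : n → F} (hz : z ∈ ext F W) :
    dv D z ∈ ext F W := by
  classical
  refine mem_ext_of_dot fun ψ hψ => ?_
  rw [up_dv, dot_of_mem hz hψ, map_zero]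

theorem dv_const_mulVec (D : Derivation K F F) (B : Matrix m n K) (z : n → F) :
    dv D (B.map (algebraMap K F) *ᵥ z) = B.map (algebraMap K F) *ᵥ dv D z := by
  funext a
  change D (up F (B a) ⬝ᵥ z) = up F (B a) ⬝ᵥ dv D z
  rw [up_dv]

theorem dv_smul_up (D : Derivation K F F) (f : F) (y : n → K) :
    dv D (f • up F y) = D f • up F y := by
  funext a
  change D (f • up F y a) = D f • up F y a
  rw [smul_eq_mul, D.leibniz, up, D.map_algebraMap, smul_zero, zero_add, smul_eq_mul, smul_eq_mul,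
    mul_comm]

theorem dv_add (D : Derivation K F F) (y z : n → F) : dv D (y + z) = dv D y + dv D z := by
  funext a
  exact map_add D _ _

theorem dv_sub (D : Derivation K F F) (y z : n → F) : dv D (y - z) = dv D y - dv D z := by
  funext a
  exact map_sub D _ _

theorem dv_neg (D : Derivation K F F) (z : n → F) : dv D (-z) = -dv D z := by
  funext a
  exact map_neg D _

theorem log_quot (D : Derivation K F F) {a b : F} (ha : a ≠ 0) (hb : b ≠ 0) :
    D (a / b) = (a / b) * (D a / a - D b / b) := by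
  rw [Derivation.leibniz_div]
  simp only [smul_eq_mul]
  field_simp

end dv

/-- The data of the second order argument. -/
structure Core {K F : Type*} [Field K] [Field F] [Algebra K F] {n m J : Type*} [Fintype n]
    [Fintype m] (X : Submodule K (n → K)) (L : Matrix m n F) (w : m → F) (z : n → F)
    (α : J → K) (u : J → m → K) (v : J → n → K) (Δ : J → Derivation K F F) : Prop where
  hw : ∀ y ∈ ext F X, w ⬝ᵥ (L *ᵥ y) = 0
  hzX : z ∈ ext F X
  hz : L *ᵥ z = 0
  hα : ∀ i, α i ≠ 0
  hcomm : ∀ i j f, Δ i (Δ j f) = Δ j (Δ i f)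
  hL : ∀ i j y, dv (Δ i - Δ j) (L *ᵥ y) = L *ᵥ dv (Δ i - Δ j) y +
    ((algebraMap K F (α i)⁻¹ * (up F (v i) ⬝ᵥ y)) • up F (u i) -
    (algebraMap K F (α j)⁻¹ * (up F (v j) ⬝ᵥ y)) • up F (u j))
  hlog : ∀ i j (b c : F), c ≠ 0 → (Δ i - Δ j) c = b * c → (Δ i - Δ j) b = 0 → b = 0
  hne : ∀ i, (w ⬝ᵥ up F (u i)) * (up F (v i) ⬝ᵥ z) ≠ 0

section core

variable {K F : Type*} [Field K] [Field F] [Algebra K F] {n m J : Type*} [Fintype n]
    [Fintype m] {X : Submodule K (n → K)} {L : Matrix m n F} {w : m → F} {z : n → F}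
    {α : J → K} {u : J → m → K} {v : J → n → K} {Δ : J → Derivation K F F}

/-- the values `g_i` -/
noncomputable def gg (F : Type*) [Field F] {K : Type*} [Field K] [Algebra K F] {n J : Type*}
    [Fintype n] (z : n → F) (α : J → K) (v : J → n → K) (i : J) : F :=
  algebraMap K F (α i)⁻¹ * (up F (v i) ⬝ᵥ z)

namespace Core

theorem g_ne (h : Core X L w z α u v Δ) (i : J) : gg F z α v i ≠ 0 := by
  refine mul_ne_zero ?_ (right_ne_zero_of_mul (h.hne i))
  rw [Ne, map_eq_zero, inv_eq_zero]
  exact h.hα i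

theorem a_ne (h : Core X L w z α u v Δ) (i : J) : w ⬝ᵥ up F (u i) ≠ 0 :=
  left_ne_zero_of_mul (h.hne i)

theorem L_dv (h : Core X L w z α u v Δ) (i j : J) : L *ᵥ dv (Δ i - Δ j) z =
    -(gg F z α v i • up F (u i) - gg F z α v j • up F (u j)) := by
  have h1 := h.hL i j z
  rw [h.hz, dv_zero] at h1
  exact eq_neg_of_add_eq_zero_left h1.symm

theorem ga (h : Core X L w z α u v Δ) (i j : J) :
    gg F z α v i * (w ⬝ᵥ up F (u i)) = gg F z α v j * (w ⬝ᵥ up F (u j)) := by
  have h1 := h.hw _ (dv_mem (Δ i - Δ j) h.hzX)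
  rw [h.L_dv, dotProduct_neg, dotProduct_sub, dotProduct_smul, dotProduct_smul, neg_eq_zero,
    sub_eq_zero] at h1
  exact h1

/-- the logarithmic derivatives -/
noncomputable def e (_ : Core X L w z α u v Δ) (i k : J) : F :=
  Δ i (gg F z α v k) / gg F z α v k

theorem second (h : Core X L w z α u v Δ) (i j k l : J) :
    (h.e i k - h.e j k - h.e i l + h.e j l) + (h.e k i - h.e l i - h.e k j + h.e l j) = 0 := by
  have h1 := h.hL i j (dv (Δ k - Δ l) z)
  rw [h.L_dv, dv_neg, dv_sub, dv_smul_up, dv_smul_up] at h1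
  have h2 := congrArg (fun y => w ⬝ᵥ y) h1
  simp only [dotProduct_neg, dotProduct_sub, dotProduct_smul, dotProduct_add, smul_eq_mul,
    up_dv] at h2
  rw [h.hw _ (dv_mem _ (dv_mem _ h.hzX)), zero_add] at h2
  have h3 : ∀ i, algebraMap K F (α i)⁻¹ * (Δ k - Δ l) (up F (v i) ⬝ᵥ z) =
      (Δ k - Δ l) (gg F z α v i) := by
    intro i
    rw [gg, Derivation.leibniz, Derivation.map_algebraMap, smul_zero, add_zero, smul_eq_mul]
  rw [h3, h3] at h2
  simp only [Derivation.sub_apply] at h2
  set g := gg F z α v with hg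
  set μ := g i * (w ⬝ᵥ up F (u i)) with hμ
  have ha : ∀ k, w ⬝ᵥ up F (u k) = μ / g k := by
    intro k
    rw [eq_div_iff (h.g_ne k), mul_comm]
    exact h.ga k i
  have hμ0 : μ ≠ 0 := mul_ne_zero (h.g_ne i) (h.a_ne i)
  simp only [ha] at h2
  have h4 : μ * ((h.e i k - h.e j k - h.e i l + h.e j l) +
      (h.e k i - h.e l i - h.e k j + h.e l j)) = 0 := by
    unfold e
    rw [← hg]
    simp only [mul_div_assoc'] at h2
    have e1 : ∀ a b : F, a * μ / b = μ * (a / b) := fun a b => by ring
    simp only [e1] at h2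
    have e2 : ∀ a b c : F, (a - b) / c = a / c - b / c := fun a b c => by ring
    simp only [e2] at h2
    linear_combination -h2
  exact (mul_eq_zero.1 h4).resolve_left hμ0

theorem pair (h : Core X L w z α u v Δ) (h2 : (2 : F) ≠ 0) (i j : J) :
    h.e i i - h.e j i - h.e i j + h.e j j = 0 := by
  have h1 := h.second i j i j
  have h3 : 2 * (h.e i i - h.e j i - h.e i j + h.e j j) = 0 := by linear_combination h1
  exact (mul_eq_zero.1 h3).resolve_left h2

theorem log_gg (h : Core X L w z α u v Δ) (i j k l : J) :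
    (Δ i - Δ j) (gg F z α v k / gg F z α v l) = (gg F z α v k / gg F z α v l) *
      (h.e i k - h.e j k - h.e i l + h.e j l) := by
  rw [log_quot _ (h.g_ne k) (h.g_ne l)]
  unfold e
  simp only [Derivation.sub_apply]
  ring

theorem triple (h : Core X L w z α u v Δ) (h2 : (2 : F) ≠ 0) (i j k : J) :
    h.e i j - h.e j j - h.e i k + h.e j k = 0 := by
  have p1 := h.pair h2 j k
  have p2 := h.pair h2 i k
  have p3 := h.pair h2 i j
  -- three expressions for `b`
  have b2 : h.e i j - h.e j j - h.e i k + h.e j k = h.e i j - h.e k j - h.e i i + h.e k i := by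
    linear_combination -p1 + p2
  have hc : gg F z α v j / gg F z α v k ≠ 0 := div_ne_zero (h.g_ne j) (h.g_ne k)
  have hc' : gg F z α v j / gg F z α v i ≠ 0 := div_ne_zero (h.g_ne j) (h.g_ne i)
  refine h.hlog i j _ _ hc (by rw [h.log_gg i j j k, mul_comm]) ?_
  rw [b2]
  have e1 : h.e i j - h.e k j - h.e i i + h.e k i =
      (Δ i - Δ k) (gg F z α v j / gg F z α v i) / (gg F z α v j / gg F z α v i) := by
    rw [h.log_gg i k j i, mul_div_cancel_left₀ _ hc']
  have e2 : (Δ i - Δ j) (gg F z α v j / gg F z α v i) = 0 := by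
    rw [h.log_gg i j j i]
    have : h.e i j - h.e j j - h.e i i + h.e j i = 0 := by linear_combination -p3
    rw [this, mul_zero]
  have e3 : (Δ i - Δ j) ((Δ i - Δ k) (gg F z α v j / gg F z α v i)) =
      (Δ i - Δ k) ((Δ i - Δ j) (gg F z α v j / gg F z α v i)) := by
    simp only [Derivation.sub_apply, map_sub]
    rw [h.hcomm j i, h.hcomm i k, h.hcomm j k]
    ring
  rw [e1, Derivation.leibniz_div, e3, e2, map_zero, smul_zero, smul_zero, sub_zero, smul_zero]

theorem const (h : Core X L w z α u v Δ) (h2 : (2 : F) ≠ 0) (i j k l : J) :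
    (Δ i - Δ j) (gg F z α v k / gg F z α v l) = 0 := by
  rw [h.log_gg]
  have h3 := h.triple h2 i j k
  have h4 := h.triple h2 i j l
  have : h.e i k - h.e j k - h.e i l + h.e j l = 0 := by linear_combination h4 - h3
  rw [this, mul_zero]

end Core

end core

end Pool.Agent.W981.Hyp
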