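import Pool.Agent.W981.Hyp.Shift
import Pool.Agent.W925.Sym1

/-!
# Partial derivatives of rational functions
-/

set_option autoImplicit false
set_option linter.unusedSectionVars false

namespace Pool.Agent.W981.Hyp

open Module Matrix MvPolynomial

section deriv

variable {σ K : Type*} [Field K]

/-- a polynomial together with its derivative -/
noncomputable def dual (k : σ) : MvPolynomial σ K →+* TrivSqZeroExt (FF σ K) (FF σ K) where
  toFun p := TrivSqZeroExt.inl (algebraMap _ (FF σ K) p) +
    TrivSqZeroExt.inr (algebraMap _ (FF σ K) (pderiv k p))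
  map_one' := by
    rw [pderiv_one, map_zero, map_one, TrivSqZeroExt.inr_zero, add_zero]
    rfl
  map_mul' p q := by
    ext
    · simp
    · simp only [pderiv_mul, map_mul, map_add, TrivSqZeroExt.snd_add, TrivSqZeroExt.snd_inl,
        TrivSqZeroExt.snd_inr, TrivSqZeroExt.snd_mul, TrivSqZeroExt.fst_add,
        TrivSqZeroExt.fst_inl, TrivSqZeroExt.fst_inr, zero_add, add_zero, smul_eq_mul,
        MulOpposite.smul_eq_mul_unop, MulOpposite.unop_op]
      ring
  map_zero' := by
    rw [map_zero, map_zero, map_zero, TrivSqZeroExt.inl_zero, TrivSqZeroExt.inr_zero, add_zero]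
  map_add' p q := by
    ext
    · rw [TrivSqZeroExt.fst_add, TrivSqZeroExt.fst_inl, TrivSqZeroExt.fst_inr,
        TrivSqZeroExt.fst_add, TrivSqZeroExt.fst_add, TrivSqZeroExt.fst_add,
        TrivSqZeroExt.fst_inl, TrivSqZeroExt.fst_inr, TrivSqZeroExt.fst_inl,
        TrivSqZeroExt.fst_inr, map_add]
      ring
    · rw [TrivSqZeroExt.snd_add, TrivSqZeroExt.snd_inl, TrivSqZeroExt.snd_inr,
        TrivSqZeroExt.snd_add, TrivSqZeroExt.snd_add, TrivSqZeroExt.snd_add,
        TrivSqZeroExt.snd_inl, TrivSqZeroExt.snd_inr, TrivSqZeroExt.snd_inl,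
        TrivSqZeroExt.snd_inr, map_add, map_add]
      ring

theorem dual_fst (k : σ) (p : MvPolynomial σ K) :
    (dual k p).fst = algebraMap _ (FF σ K) p := by
  change (TrivSqZeroExt.inl (algebraMap _ (FF σ K) p) +
    TrivSqZeroExt.inr (algebraMap _ (FF σ K) (pderiv k p))).fst = _
  rw [TrivSqZeroExt.fst_add, TrivSqZeroExt.fst_inl, TrivSqZeroExt.fst_inr, add_zero]

theorem dual_snd (k : σ) (p : MvPolynomial σ K) :
    (dual k p).snd = algebraMap _ (FF σ K) (pderiv k p) := by
  change (TrivSqZeroExt.inl (algebraMap _ (FF σ K) p) +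
    TrivSqZeroExt.inr (algebraMap _ (FF σ K) (pderiv k p))).snd = _
  rw [TrivSqZeroExt.snd_add, TrivSqZeroExt.snd_inl, TrivSqZeroExt.snd_inr, zero_add]

theorem dual_unit (k : σ) (p : nonZeroDivisors (MvPolynomial σ K)) : IsUnit (dual k p.1) := by
  rw [TrivSqZeroExt.isUnit_iff_isUnit_fst, dual_fst, isUnit_iff_ne_zero]
  rw [Ne, FaithfulSMul.algebraMap_eq_zero_iff]
  exact nonZeroDivisors.coe_ne_zero p

/-- the extension to rational functions -/
noncomputable def dualF (k : σ) : FF σ K →+* TrivSqZeroExt (FF σ K) (FF σ K) :=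
  IsLocalization.lift (M := nonZeroDivisors (MvPolynomial σ K)) (g := dual k) (dual_unit k)

theorem dualF_algebraMap (k : σ) (p : MvPolynomial σ K) :
    dualF k (algebraMap _ (FF σ K) p) = dual k p := by
  rw [dualF, IsLocalization.lift_eq]

theorem dualF_fst (k : σ) (f : FF σ K) : (dualF k f).fst = f := by
  obtain ⟨p, q, hq, rfl⟩ := IsFractionRing.div_surjective (A := MvPolynomial σ K) f
  have hq0 : algebraMap (MvPolynomial σ K) (FF σ K) q ≠ 0 := by
    rw [Ne, FaithfulSMul.algebraMap_eq_zero_iff]
    exact nonZeroDivisors.ne_zero hq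
  have h1 : dualF k (algebraMap _ (FF σ K) p / algebraMap _ (FF σ K) q) *
      dualF k (algebraMap _ (FF σ K) q) = dualF k (algebraMap _ (FF σ K) p) := by
    rw [← map_mul, div_mul_cancel₀ _ hq0]
  have h2 := congrArg TrivSqZeroExt.fst h1
  rw [TrivSqZeroExt.fst_mul, dualF_algebraMap, dualF_algebraMap, dual_fst, dual_fst] at h2
  rw [eq_div_iff hq0]
  exact h2

/-- the partial derivative of rational functions -/
noncomputable def dF (k : σ) : Derivation K (FF σ K) (FF σ K) :=
  Derivation.mk'
    { toFun := fun f => (dualF k f).snd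
      map_add' := fun f g => by rw [map_add, TrivSqZeroExt.snd_add]
      map_smul' := fun c f => by
        have h : dualF k (algebraMap K (FF σ K) c) = dual k (C c) := by
          rw [← dualF_algebraMap]
          congr 1
        rw [Algebra.smul_def, map_mul, TrivSqZeroExt.snd_mul, h, dual_snd, dual_fst, pderiv_C,
          map_zero, RingHom.id_apply, smul_zero, add_zero, smul_eq_mul, Algebra.smul_def,
          IsScalarTower.algebraMap_apply K (MvPolynomial σ K) (FF σ K)]
        rfl }
    (fun f g => by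
      change (dualF k (f * g)).snd = f • (dualF k g).snd + g • (dualF k f).snd
      rw [map_mul, TrivSqZeroExt.snd_mul, dualF_fst, dualF_fst, op_smul_eq_smul])

theorem dF_algebraMap (k : σ) (p : MvPolynomial σ K) :
    dF k (algebraMap _ (FF σ K) p) = algebraMap _ (FF σ K) (pderiv k p) := by
  change (dualF k (algebraMap _ (FF σ K) p)).snd = _
  rw [dualF_algebraMap, dual_snd]

theorem dF_tt [DecidableEq σ] (k j : σ) : dF k (tt K j) = if j = k then 1 else 0 := by
  rw [tt, dF_algebraMap, pderiv_X]
  by_cases h : j = k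
  · subst h; simp
  · rw [if_neg h, Pi.single_eq_of_ne h]
    simp

/-- a derivation which vanishes on the polynomials vanishes -/
theorem deriv_ext (D : Derivation K (FF σ K) (FF σ K))
    (h : ∀ p, D (algebraMap (MvPolynomial σ K) (FF σ K) p) = 0) (f : FF σ K) : D f = 0 := by
  obtain ⟨p, q, hq, rfl⟩ := IsFractionRing.div_surjective (A := MvPolynomial σ K) f
  have hq0 : algebraMap (MvPolynomial σ K) (FF σ K) q ≠ 0 := by
    rw [Ne, FaithfulSMul.algebraMap_eq_zero_iff]
    exact nonZeroDivisors.ne_zero hq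
  have h1 := h p
  have h2 : algebraMap (MvPolynomial σ K) (FF σ K) p =
      algebraMap (MvPolynomial σ K) (FF σ K) q *
      (algebraMap (MvPolynomial σ K) (FF σ K) p / algebraMap (MvPolynomial σ K) (FF σ K) q) := by
    rw [mul_div_cancel₀ _ hq0]
  rw [h2, D.leibniz, h q, smul_zero, add_zero, smul_eq_mul] at h1
  exact (mul_eq_zero.1 h1).resolve_left hq0

theorem pderiv_comm' (i j : σ) (p : MvPolynomial σ K) :
    pderiv i (pderiv j p) = pderiv j (pderiv i p) := by
  classical
  let D1 : Derivation K (MvPolynomial σ K) (MvPolynomial σ K) := pderiv i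
  let D2 : Derivation K (MvPolynomial σ K) (MvPolynomial σ K) := pderiv j
  have h : ⁅D1, D2⁆ = 0 := by
    refine MvPolynomial.derivation_ext fun l => ?_
    rw [Derivation.commutator_apply, Derivation.zero_apply]
    change pderiv i (pderiv j (X l)) - pderiv j (pderiv i (X l)) = 0
    have hs : ∀ a b c : σ, pderiv a (Pi.single (M := fun _ => MvPolynomial σ K) b 1 c) = 0 := by
      intro a b c
      rw [Pi.single_apply]
      split_ifs
      · exact pderiv_one
      · exact map_zero _
    rw [pderiv_X, pderiv_X, hs, hs, sub_self]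
  have h2 : ⁅D1, D2⁆ p = 0 := by rw [h]; rfl
  rw [Derivation.commutator_apply] at h2
  exact sub_eq_zero.1 h2

theorem dF_comm (i j : σ) (f : FF σ K) : dF i (dF j f) = dF j (dF i f) := by
  have h := deriv_ext ⁅(dF i : Derivation K (FF σ K) (FF σ K)), dF j⁆ (fun p => by
    rw [Derivation.commutator_apply, dF_algebraMap, dF_algebraMap, dF_algebraMap, dF_algebraMap,
      pderiv_comm' i j, sub_self]) f
  rw [Derivation.commutator_apply] at h
  exact sub_eq_zero.1 h

/-- constants -/
theorem const_of_dF [CharZero K] {s : ℕ} (f : FF (Fin s) K) (h : ∀ k, dF k f = 0) :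
    ∃ c : K, f = algebraMap K (FF (Fin s) K) c := by
  obtain ⟨p, q, hq, rfl⟩ := IsFractionRing.div_surjective (A := MvPolynomial (Fin s) K) f
  have hq1 : q ≠ 0 := nonZeroDivisors.ne_zero hq
  have hq0 : algebraMap (MvPolynomial (Fin s) K) (FF (Fin s) K) q ≠ 0 := by
    rw [Ne, FaithfulSMul.algebraMap_eq_zero_iff]
    exact hq1
  obtain ⟨c, hc⟩ := W925.Sym.const_mul_of_wronskian p q hq1 (fun j => by
    apply IsFractionRing.injective (MvPolynomial (Fin s) K) (FF (Fin s) K)
    have h1 : algebraMap (MvPolynomial (Fin s) K) (FF (Fin s) K) p =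
      algebraMap (MvPolynomial (Fin s) K) (FF (Fin s) K) q *
      (algebraMap (MvPolynomial (Fin s) K) (FF (Fin s) K) p /
        algebraMap (MvPolynomial (Fin s) K) (FF (Fin s) K) q) := by
      rw [mul_div_cancel₀ _ hq0]
    have h2 := congrArg (dF j) h1
    rw [Derivation.leibniz, h j, smul_zero, zero_add, smul_eq_mul, dF_algebraMap,
      dF_algebraMap] at h2
    rw [map_mul, map_mul, h2]
    field_simp)
  refine ⟨c, ?_⟩
  rw [hc, map_mul, mul_div_cancel_right₀ _ hq0, algebraMap_C]

end deriv

end Pool.Agent.W981.Hyp
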