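import Mathlib

/-!
# Extension of scalars of subspaces of `K^n`, and hulls
-/

set_option autoImplicit false
set_option linter.unusedSectionVars false

namespace Pool.Agent.W981.Hyp

open Module Matrix

section ext

variable {K F : Type*} [Field K] [Field F] [Algebra K F] {n m : Type*}

/-- the vector `y` with entries in the bigger field -/
def up (F : Type*) [Field F] [Algebra K F] (y : n → K) : n → F := fun a => algebraMap K F (y a)

/-- extension of scalars of a subspace -/
def ext (F : Type*) [Field F] [Algebra K F] (W : Submodule K (n → K)) : Submodule F (n → F) :=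
  Submodule.span F (up F '' (W : Set (n → K)))

theorem up_add (y z : n → K) : up F (y + z) = up F y + up F z := by
  funext a; simp [up]

theorem up_smul (c : K) (y : n → K) : up F (c • y) = algebraMap K F c • up F y := by
  funext a; simp [up]

theorem up_zero : up F (0 : n → K) = 0 := by
  funext a; simp [up]

theorem up_injective : Function.Injective (up F : (n → K) → n → F) := by
  intro y z h
  funext a
  exact (algebraMap K F).injective (congrFun h a)

theorem up_mem {W : Submodule K (n → K)} {w : n → K} (hw : w ∈ W) : up F w ∈ ext F W :=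
  Submodule.subset_span ⟨w, hw, rfl⟩

theorem ext_mono {W W' : Submodule K (n → K)} (h : W ≤ W') : ext F W ≤ ext F W' :=
  Submodule.span_mono (Set.image_mono h)

theorem ext_bot : ext F (⊥ : Submodule K (n → K)) = ⊥ := by
  rw [eq_bot_iff, ext, Submodule.span_le]
  rintro _ ⟨w, hw, rfl⟩
  rw [SetLike.mem_coe, Submodule.mem_bot] at hw
  rw [hw, up_zero]
  exact Submodule.zero_mem _

theorem ext_le_iff {W : Submodule K (n → K)} {T : Submodule F (n → F)} :
    ext F W ≤ T ↔ ∀ w ∈ W, up F w ∈ T := by
  rw [ext, Submodule.span_le]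
  constructor
  · intro h w hw
    exact h ⟨w, hw, rfl⟩
  · rintro h _ ⟨w, hw, rfl⟩
    exact h w hw

theorem ext_sup (W W' : Submodule K (n → K)) : ext F (W ⊔ W') = ext F W ⊔ ext F W' := by
  apply le_antisymm
  · rw [ext_le_iff]
    intro w hw
    obtain ⟨a, ha, b, hb, rfl⟩ := Submodule.mem_sup.1 hw
    rw [up_add]
    exact Submodule.add_mem_sup (up_mem ha) (up_mem hb)
  · exact sup_le (ext_mono le_sup_left) (ext_mono le_sup_right)

theorem ext_span_singleton (e : n → K) : ext F (Submodule.span K {e}) =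
    Submodule.span F {up F e} := by
  apply le_antisymm
  · rw [ext_le_iff]
    intro w hw
    obtain ⟨c, rfl⟩ := Submodule.mem_span_singleton.1 hw
    rw [up_smul]
    exact Submodule.smul_mem _ _ (Submodule.mem_span_singleton_self _)
  · rw [Submodule.span_singleton_le_iff_mem]
    exact up_mem (Submodule.mem_span_singleton_self _)

theorem finrank_ext [Finite n] (W : Submodule K (n → K)) :
    finrank F (ext F W) = finrank K W := by
  classical
  have := Fintype.ofFinite n
  set b := Module.finBasis K W with hb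
  set v : Fin (finrank K W) → n → K := fun i => (b i : n → K) with hv
  have hli : LinearIndependent K v := by
    have := b.linearIndependent.map' W.subtype (Submodule.ker_subtype W)
    exact this
  have hspan : Submodule.span K (Set.range v) = W := by
    have h1 := congrArg (Submodule.map W.subtype) b.span_eq
    rw [Submodule.map_span, Submodule.map_top, Submodule.range_subtype, ← Set.range_comp] at h1
    exact h1
  have h2 : LinearIndependent F (fun i => algebraMap K F ∘ v i) :=
    linearIndependent_algebraMap_comp_iff.2 hli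
  have h4 : ext F W = Submodule.span F (Set.range fun i => algebraMap K F ∘ v i) := by
    apply le_antisymm
    · rw [ext_le_iff]
      intro w hw
      rw [← hspan] at hw
      induction hw using Submodule.span_induction with
      | mem x hx =>
        obtain ⟨i, rfl⟩ := hx
        exact Submodule.subset_span ⟨i, rfl⟩
      | zero => rw [up_zero]; exact Submodule.zero_mem _
      | add x y _ _ hx hy => rw [up_add]; exact Submodule.add_mem _ hx hy
      | smul c x _ hx => rw [up_smul]; exact Submodule.smul_mem _ _ hx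
    · rw [Submodule.span_le]
      rintro _ ⟨i, rfl⟩
      exact up_mem (W := W) (b i).2
  have h3 := finrank_span_eq_card h2
  rw [Fintype.card_fin] at h3
  rw [h4]
  exact h3

variable [Fintype n] [Fintype m]

theorem up_dot (y z : n → K) : up F y ⬝ᵥ up F z = algebraMap K F (y ⬝ᵥ z) := by
  simp [up, dotProduct]

theorem up_mulVec (B : Matrix m n K) (y : n → K) :
    B.map (algebraMap K F) *ᵥ up F y = up F (B *ᵥ y) := by
  funext a
  simp [up, mulVec, dotProduct]

theorem dot_of_mem {W : Submodule K (n → K)} {z : n → F} (hz : z ∈ ext F W) {ψ : n → K}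
    (hψ : ∀ w ∈ W, ψ ⬝ᵥ w = 0) : up F ψ ⬝ᵥ z = 0 := by
  rw [ext] at hz
  induction hz using Submodule.span_induction with
  | mem x hx =>
    obtain ⟨w, hw, rfl⟩ := hx
    rw [up_dot, hψ w hw, map_zero]
  | zero => rw [dotProduct_zero]
  | add x y _ _ hx hy => rw [dotProduct_add, hx, hy, add_zero]
  | smul c x _ hx => rw [dotProduct_smul, hx, smul_zero]

/-- A projection matrix onto a subspace. -/
theorem exists_proj [DecidableEq n] (W : Submodule K (n → K)) : ∃ P : Matrix n n K,
    (∀ w ∈ W, P *ᵥ w = w) ∧ ∀ y, P *ᵥ y ∈ W := by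
  obtain ⟨g, hg⟩ := LinearMap.exists_leftInverse_of_injective W.subtype (Submodule.ker_subtype W)
  refine ⟨LinearMap.toMatrix' (W.subtype ∘ₗ g), fun w hw => ?_, fun y => ?_⟩
  · rw [← Matrix.toLin'_apply, Matrix.toLin'_toMatrix', LinearMap.comp_apply]
    have := congrArg (fun f => f ⟨w, hw⟩) hg
    simp only [LinearMap.comp_apply, LinearMap.id_apply, Submodule.subtype_apply] at this
    rw [this]
    rfl
  · rw [← Matrix.toLin'_apply, Matrix.toLin'_toMatrix', LinearMap.comp_apply]
    exact (g y).2

/-- A matrix whose kernel is a given subspace, over all bigger fields. -/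
theorem exists_ker [DecidableEq n] (W : Submodule K (n → K)) : ∃ P : Matrix n n K,
    (∀ w ∈ W, P *ᵥ w = 0) ∧ ∀ y, y - P *ᵥ y ∈ W := by
  obtain ⟨P, h1, h2⟩ := exists_proj W
  refine ⟨1 - P, fun w hw => ?_, fun y => ?_⟩
  · rw [sub_mulVec, one_mulVec, h1 w hw, sub_self]
  · rw [sub_mulVec, one_mulVec, sub_sub_cancel]
    exact h2 y

theorem mulVec_mem_ext {W : Submodule K (n → K)} {W' : Submodule K (m → K)} {B : Matrix m n K}
    (h : ∀ w ∈ W, B *ᵥ w ∈ W') {z : n → F} (hz : z ∈ ext F W) :
    B.map (algebraMap K F) *ᵥ z ∈ ext F W' := by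
  rw [ext] at hz
  induction hz using Submodule.span_induction with
  | mem x hx =>
    obtain ⟨w, hw, rfl⟩ := hx
    rw [up_mulVec]
    exact up_mem (h w hw)
  | zero => rw [mulVec_zero]; exact Submodule.zero_mem _
  | add x y _ _ hx hy => rw [mulVec_add]; exact Submodule.add_mem _ hx hy
  | smul c x _ hx => rw [mulVec_smul]; exact Submodule.smul_mem _ _ hx

theorem mulVec_mem_ext' {W' : Submodule K (m → K)} {B : Matrix m n K}
    (h : ∀ w, B *ᵥ w ∈ W') (z : n → F) : B.map (algebraMap K F) *ᵥ z ∈ ext F W' := by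
  classical
  have h1 : z = ∑ b, z b • up F (Pi.single b (1 : K)) := by
    funext a
    simp [up, Pi.single_apply, Finset.sum_apply, apply_ite (algebraMap K F)]
  rw [h1, mulVec_sum]
  refine Submodule.sum_mem _ fun b _ => ?_
  rw [mulVec_smul, up_mulVec]
  exact Submodule.smul_mem _ _ (up_mem (h _))

theorem sub_mem_ext {W : Submodule K (n → K)} {P : Matrix n n K}
    (h : ∀ y, y - P *ᵥ y ∈ W) (z : n → F) : z - P.map (algebraMap K F) *ᵥ z ∈ ext F W := by
  classical
  have h1 := mulVec_mem_ext' (F := F) (B := 1 - P) (W' := W) (fun w => by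
    rw [sub_mulVec, one_mulVec]
    exact h w) z
  have h2 : (1 - P).map (algebraMap K F) = 1 - P.map (algebraMap K F) := by
    ext a b
    rw [Matrix.map_apply, Matrix.sub_apply, Matrix.sub_apply, map_sub, Matrix.map_apply,
      Matrix.one_apply, Matrix.one_apply]
    split_ifs <;> simp
  rwa [h2, sub_mulVec, one_mulVec] at h1

theorem mem_ext_of_dot {W : Submodule K (n → K)} {z : n → F}
    (h : ∀ ψ : n → K, (∀ w ∈ W, ψ ⬝ᵥ w = 0) → up F ψ ⬝ᵥ z = 0) : z ∈ ext F W := by
  classical
  obtain ⟨P, h1, h2⟩ := exists_ker W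
  have h3 : P.map (algebraMap K F) *ᵥ z = 0 := by
    funext a
    exact h (P a) fun w hw => congrFun (h1 w hw) a
  have h4 := sub_mem_ext h2 z
  rwa [h3, sub_zero] at h4

theorem mem_ext_iff {W : Submodule K (n → K)} {z : n → F} : z ∈ ext F W ↔
    ∀ ψ : n → K, (∀ w ∈ W, ψ ⬝ᵥ w = 0) → up F ψ ⬝ᵥ z = 0 :=
  ⟨fun h ψ hψ => dot_of_mem h hψ, mem_ext_of_dot⟩

theorem mem_iff_dot {W : Submodule K (n → K)} {y : n → K} : y ∈ W ↔
    ∀ ψ : n → K, (∀ w ∈ W, ψ ⬝ᵥ w = 0) → ψ ⬝ᵥ y = 0 := by
  classical
  constructor
  · intro h _ hψ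
    exact hψ y h
  · intro h
    obtain ⟨P, h1, h2⟩ := exists_ker W
    have h3 : P *ᵥ y = 0 := by
      funext a
      exact h (P a) fun w hw => congrFun (h1 w hw) a
    have h4 := h2 y
    rwa [h3, sub_zero] at h4

theorem up_mem_iff {W : Submodule K (n → K)} {y : n → K} : up F y ∈ ext F W ↔ y ∈ W := by
  constructor
  · intro h
    rw [mem_iff_dot]
    intro ψ hψ
    have h1 := dot_of_mem h hψ
    rw [up_dot] at h1
    exact (algebraMap K F).injective (by rw [h1, map_zero])
  · exact fun h => up_mem h

theorem ext_le_ext_iff {W W' : Submodule K (n → K)} : ext F W ≤ ext F W' ↔ W ≤ W' := by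
  constructor
  · intro h w hw
    exact up_mem_iff.1 (h (up_mem hw))
  · exact ext_mono

/-- the smallest subspace over the small field whose extension contains `Z` -/
def hull (K : Type*) {F : Type*} [Field K] [Field F] [Algebra K F] {n : Type*} [Fintype n]
    (Z : Submodule F (n → F)) : Submodule K (n → K) where
  carrier := {y | ∀ ψ : n → K, (∀ z ∈ Z, up F ψ ⬝ᵥ z = 0) → ψ ⬝ᵥ y = 0}
  add_mem' := by
    intro a b ha hb ψ hψ
    rw [dotProduct_add, ha ψ hψ, hb ψ hψ, add_zero]
  zero_mem' := by
    intro _ _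
    rw [dotProduct_zero]
  smul_mem' := by
    intro c a ha ψ hψ
    rw [dotProduct_smul, ha ψ hψ, smul_zero]

theorem mem_hull {Z : Submodule F (n → F)} {y : n → K} : y ∈ hull K Z ↔
    ∀ ψ : n → K, (∀ z ∈ Z, up F ψ ⬝ᵥ z = 0) → ψ ⬝ᵥ y = 0 := Iff.rfl

theorem hull_le {Z : Submodule F (n → F)} {W : Submodule K (n → K)} (h : Z ≤ ext F W) :
    hull K Z ≤ W := by
  intro y hy
  rw [mem_iff_dot]
  intro ψ hψ
  exact hy ψ fun z hz => dot_of_mem (h hz) hψ

theorem le_ext_hull (Z : Submodule F (n → F)) : Z ≤ ext F (hull K Z) := by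
  intro z hz
  refine mem_ext_of_dot fun ψ hψ => ?_
  -- double annihilator
  let N : Submodule K (n → K) :=
    { carrier := {φ | ∀ z ∈ Z, up F φ ⬝ᵥ z = 0}
      add_mem' := by
        intro a b ha hb z hz
        rw [up_add, add_dotProduct, ha z hz, hb z hz, add_zero]
      zero_mem' := by
        intro z _
        rw [up_zero, zero_dotProduct]
      smul_mem' := by
        intro c a ha z hz
        rw [up_smul, smul_dotProduct, ha z hz, smul_zero] }
  have h1 : ψ ∈ N := by
    rw [mem_iff_dot]
    intro y hy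
    rw [dotProduct_comm]
    refine hψ y fun φ hφ => ?_
    rw [dotProduct_comm]
    exact hy φ hφ
  exact h1 z hz

theorem hull_mono_iff {Z : Submodule F (n → F)} {W : Submodule K (n → K)} :
    hull K Z ≤ W ↔ Z ≤ ext F W :=
  ⟨fun h => (le_ext_hull Z).trans (ext_mono h), hull_le⟩

/-- preimages commute with the extension of scalars -/
theorem mem_ext_comap {W' : Submodule K (m → K)} {B : Matrix m n K} {z : n → F}
    (h : B.map (algebraMap K F) *ᵥ z ∈ ext F W') : z ∈ ext F (W'.comap B.mulVecLin) := by
  refine mem_ext_of_dot fun ψ hψ => ?_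
  let N : Submodule K (n → K) :=
    { carrier := {φ | ∃ χ : m → K, (∀ w ∈ W', χ ⬝ᵥ w = 0) ∧ φ = χ ᵥ* B}
      add_mem' := by
        rintro _ _ ⟨a, ha, rfl⟩ ⟨b, hb, rfl⟩
        refine ⟨a + b, fun w hw => ?_, ?_⟩
        · rw [add_dotProduct, ha w hw, hb w hw, add_zero]
        · rw [add_vecMul]
      zero_mem' := ⟨0, fun w _ => by rw [zero_dotProduct], by rw [zero_vecMul]⟩
      smul_mem' := by
        rintro c _ ⟨a, ha, rfl⟩
        refine ⟨c • a, fun w hw => ?_, ?_⟩
        · rw [smul_dotProduct, ha w hw, smul_zero]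
        · rw [smul_vecMul] }
  have h1 : ψ ∈ N := by
    rw [mem_iff_dot]
    intro y hy
    rw [dotProduct_comm]
    refine hψ y ?_
    rw [Submodule.mem_comap, mulVecLin_apply, mem_iff_dot]
    intro χ hχ
    have := hy (χ ᵥ* B) ⟨χ, hχ, rfl⟩
    rwa [dotProduct_comm, ← dotProduct_mulVec] at this
  obtain ⟨χ, hχ, rfl⟩ := h1
  have h2 : up F (χ ᵥ* B) = up F χ ᵥ* B.map (algebraMap K F) := by
    funext a
    simp [up, vecMul, dotProduct]
  rw [h2, ← dotProduct_mulVec]
  exact dot_of_mem h hχ

end ext

section finrank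

variable {F V V' : Type*} [Field F] [AddCommGroup V] [Module F V]
    [AddCommGroup V'] [Module F V']

theorem finrank_map_add [FiniteDimensional F V] (f : V →ₗ[F] V') (W : Submodule F V) :
    finrank F (W.map f) + finrank F (LinearMap.ker f ⊓ W : Submodule F V) = finrank F W := by
  have h1 := LinearMap.finrank_range_add_finrank_ker (f.domRestrict W)
  rw [LinearMap.range_domRestrict] at h1
  rw [← h1]
  congr 1
  have h2 : (LinearMap.ker f ⊓ W : Submodule F V) =
      (LinearMap.ker (f.domRestrict W)).map W.subtype := by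
    ext x
    simp only [Submodule.mem_inf, LinearMap.mem_ker, Submodule.mem_map, LinearMap.domRestrict_apply,
      Submodule.subtype_apply, Subtype.exists, exists_and_left, exists_prop, exists_eq_right_right]
  rw [h2]
  exact Submodule.finrank_map_subtype_eq _ _

/-- the dimension of `f(S) + T` -/
theorem finrank_map_sup [FiniteDimensional F V] [FiniteDimensional F V'] (f : V →ₗ[F] V')
    (S : Submodule F V) (T : Submodule F V') :
    finrank F (S.map f ⊔ T : Submodule F V') + finrank F (T.comap f ⊓ S : Submodule F V) =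
      finrank F T + finrank F S := by
  have h1 := finrank_map_add T.mkQ (S.map f ⊔ T)
  have h2 := finrank_map_add (T.mkQ ∘ₗ f) S
  have h3 : (LinearMap.ker T.mkQ ⊓ (S.map f ⊔ T) : Submodule F V') = T := by
    rw [Submodule.ker_mkQ]
    exact inf_eq_left.2 le_sup_right
  have h4 : (S.map f ⊔ T).map T.mkQ = S.map (T.mkQ ∘ₗ f) := by
    rw [Submodule.map_sup, Submodule.map_comp]
    have : T.map T.mkQ = ⊥ := by
      rw [eq_bot_iff]
      rintro _ ⟨x, hx, rfl⟩
      rw [Submodule.mem_bot, Submodule.mkQ_apply, Submodule.Quotient.mk_eq_zero]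
      exact hx
    rw [this, sup_bot_eq]
  have h5 : LinearMap.ker (T.mkQ ∘ₗ f) = T.comap f := by
    rw [LinearMap.ker_comp, Submodule.ker_mkQ]
  rw [h3, h4] at h1
  rw [h5] at h2
  omega

end finrank

end Pool.Agent.W981.Hyp
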