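import Pool.Agent.W981.Hyp.Deriv

/-!
# Logarithmic derivatives of rational functions
-/

set_option autoImplicit false
set_option linter.unusedSectionVars false

namespace Pool.Agent.W981.Hyp

open Module Matrix MvPolynomial

section nilp

variable {K F : Type*} [Field K] [Field F] [Algebra K F] (D : Derivation K F F)

theorem iter_add (m : ℕ) (f g : F) : D^[m] (f + g) = D^[m] f + D^[m] g := by
  induction m generalizing f g with
  | zero => rfl
  | succ m ih => rw [Function.iterate_succ_apply, Function.iterate_succ_apply,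
      Function.iterate_succ_apply, map_add, ih]

theorem iter_zero (m : ℕ) : D^[m] (0 : F) = 0 := by
  induction m with
  | zero => rfl
  | succ m ih => rw [Function.iterate_succ_apply, map_zero, ih]

theorem iter_mono {m m' : ℕ} {f : F} (h : D^[m] f = 0) (hle : m ≤ m') : D^[m'] f = 0 := by
  obtain ⟨k, rfl⟩ := Nat.exists_eq_add_of_le hle
  rw [add_comm, Function.iterate_add_apply, h, iter_zero]

theorem iter_mul_aux (N : ℕ) : ∀ (a b : ℕ) (f g : F), a + b ≤ N → D^[a] f = 0 → D^[b] g = 0 →
    D^[a + b] (f * g) = 0 := by
  induction N with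
  | zero =>
    intro a b f g hab hf hg
    obtain rfl : a = 0 := by omega
    obtain rfl : b = 0 := by omega
    have : f = 0 := hf
    rw [this, zero_mul, iter_zero]
  | succ N ih =>
    intro a b f g hab hf hg
    rcases a with _ | a
    · have : f = 0 := hf
      rw [this, zero_mul, iter_zero]
    rcases b with _ | b
    · have : g = 0 := hg
      rw [this, mul_zero, iter_zero]
    rw [Function.iterate_succ_apply] at hf hg
    have h1 := ih a (b + 1) (D f) g (by omega) hf (by
      rw [Function.iterate_succ_apply]
      exact hg)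
    have h2 := ih (a + 1) b f (D g) (by omega) (by
      rw [Function.iterate_succ_apply]
      exact hf) hg
    have e : a + 1 + (b + 1) = (a + 1 + b) + 1 := by ring
    rw [e, Function.iterate_succ_apply, D.leibniz, iter_add, smul_eq_mul, smul_eq_mul, h2, zero_add,
      mul_comm]
    have e2 : a + 1 + b = a + (b + 1) := by ring
    rw [e2]
    exact h1

theorem iter_mul {a b : ℕ} {f g : F} (hf : D^[a] f = 0) (hg : D^[b] g = 0) :
    D^[a + b] (f * g) = 0 := iter_mul_aux D (a + b) a b f g le_rfl hf hg

/-- If `c' = b c` and `b' = 0`, then `b = 0`. -/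
theorem log_zero {p q c b : F} {N M : ℕ} (hp : D^[N] p = 0) (hq : D^[M] q = 0) (hq0 : q ≠ 0)
    (hc0 : c ≠ 0) (hpq : c * q = p) (hc : D c = b * c) (hb : D b = 0) : b = 0 := by
  classical
  by_contra hb0
  -- the operator `T f = b f + D f`
  let T : F → F := fun f => b * f + D f
  have hT : ∀ f, D (c * f) = c * T f := by
    intro f
    rw [D.leibniz, smul_eq_mul, smul_eq_mul, hc]
    change _ = c * (b * f + D f)
    ring
  have hTm : ∀ m f, D^[m] (c * f) = c * T^[m] f := by
    intro m
    induction m with
    | zero => intro f; rfl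
    | succ m ih =>
      intro f
      rw [Function.iterate_succ_apply, hT, ih, Function.iterate_succ_apply]
  have hTD : ∀ f, D (T f) = T (D f) := by
    intro f
    change D (b * f + D f) = b * D f + D (D f)
    rw [map_add, D.leibniz, hb, smul_zero, add_zero, smul_eq_mul]
  have hTDm : ∀ m f, D (T^[m] f) = T^[m] (D f) := by
    intro m
    induction m with
    | zero => intro f; rfl
    | succ m ih =>
      intro f
      rw [Function.iterate_succ_apply, ih, hTD, Function.iterate_succ_apply]
  have hTDe : ∀ e m f, D^[e] (T^[m] f) = T^[m] (D^[e] f) := by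
    intro e
    induction e with
    | zero => intro m f; rfl
    | succ e ih =>
      intro m f
      rw [Function.iterate_succ_apply, hTDm, ih, Function.iterate_succ_apply]
  have h1 : T^[N] q = 0 := by
    have h2 := hTm N q
    rw [hpq, hp] at h2
    exact (mul_eq_zero.1 h2.symm).resolve_left hc0
  -- the last nonzero derivative of `q`
  have hex : ∃ e, D^[e + 1] q = 0 := ⟨M, iter_mono D hq (Nat.le_succ M)⟩
  set e := Nat.find hex with he
  have he1 : D^[e + 1] q = 0 := Nat.find_spec hex
  have he0 : D^[e] q ≠ 0 := by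
    rcases Nat.eq_zero_or_pos e with h0 | h0
    · rw [h0]
      exact hq0
    · have h3 := Nat.find_min hex (m := e - 1) (by omega)
      rwa [Nat.sub_add_cancel h0] at h3
  set r := D^[e] q with hr
  have hDr : D r = 0 := by
    rw [Function.iterate_succ_apply'] at he1
    exact he1
  have h4 : T^[N] r = 0 := by
    rw [hr, ← hTDe, h1, iter_zero]
  have h5 : ∀ m, T^[m] r = b ^ m * r := by
    have h6 : ∀ m, D (b ^ m * r) = 0 := by
      intro m
      rw [D.leibniz, hDr, smul_zero, zero_add, D.leibniz_pow, hb]
      simp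
    intro m
    induction m with
    | zero => simp
    | succ m ih =>
      rw [Function.iterate_succ_apply', ih]
      change b * (b ^ m * r) + D (b ^ m * r) = _
      rw [h6, add_zero, pow_succ]
      ring
  rw [h5] at h4
  rcases mul_eq_zero.1 h4 with h6 | h6
  · exact pow_ne_zero N hb0 h6
  · exact he0 h6

end nilp

section combo

variable {σ K : Type*} [Field K] [DecidableEq σ]

/-- A derivation has constant coefficients if it maps the variables to constants. -/
def ConstCoeff (D : Derivation K (FF σ K) (FF σ K)) : Prop :=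
  ∀ j : σ, ∃ c : K, D (tt K j) = algebraMap K (FF σ K) c

theorem ConstCoeff.nilp {D : Derivation K (FF σ K) (FF σ K)} (h : ConstCoeff D)
    (p : MvPolynomial σ K) : ∃ N, D^[N] (algebraMap (MvPolynomial σ K) (FF σ K) p) = 0 := by
  induction p using MvPolynomial.induction_on with
  | C c =>
    refine ⟨1, ?_⟩
    rw [Function.iterate_one, algebraMap_C, D.map_algebraMap]
  | add p q hp hq =>
    obtain ⟨N, hN⟩ := hp
    obtain ⟨M, hM⟩ := hq
    refine ⟨N + M, ?_⟩
    rw [map_add, iter_add, iter_mono D hN (Nat.le_add_right N M),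
      iter_mono D hM (Nat.le_add_left M N), add_zero]
  | mul_X p j hp =>
    obtain ⟨N, hN⟩ := hp
    obtain ⟨c, hc⟩ := h j
    refine ⟨N + 2, ?_⟩
    rw [map_mul]
    refine iter_mul D hN ?_
    change D (D (tt K j)) = 0
    rw [hc, D.map_algebraMap]

theorem ConstCoeff.log {D : Derivation K (FF σ K) (FF σ K)} (h : ConstCoeff D)
    {b c : FF σ K} (hc0 : c ≠ 0) (hc : D c = b * c) (hb : D b = 0) : b = 0 := by
  obtain ⟨p, q, hq, hpq⟩ := IsFractionRing.div_surjective (A := MvPolynomial σ K) c
  have hq0 : algebraMap (MvPolynomial σ K) (FF σ K) q ≠ 0 := by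
    rw [Ne, FaithfulSMul.algebraMap_eq_zero_iff]
    exact nonZeroDivisors.ne_zero hq
  obtain ⟨N, hN⟩ := h.nilp p
  obtain ⟨M, hM⟩ := h.nilp q
  exact log_zero D hN hM hq0 hc0 (by rw [← hpq, div_mul_cancel₀ _ hq0]) hc hb

end combo

end Pool.Agent.W981.Hyp
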