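import Pool.Agent.W981.Hyp.Poly

/-!
# Families of rank at most one on a hyperplane
-/

set_option autoImplicit false
set_option linter.unusedSectionVars false

namespace Pool.Agent.W981.Hyp

open Module Matrix MvPolynomial

variable {σ K : Type*} [Field K] [DecidableEq σ] [Fintype σ] {n m : Type*} [Fintype n] [Fintype m]
  [DecidableEq n] [DecidableEq m]

theorem lower_bound (A : σ → Matrix m n K) {Y H : Submodule K (n → K)} (hY : Y ≤ H) :
    finrank K Y ≤ finrank K (im A Y) + finrank (FF σ K) (ZZ A H ⊥) := by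
  have h1 := finrank_map_add (gen A).mulVecLin (ext (FF σ K) Y)
  have h2 := Submodule.finrank_mono (map_gen_le A Y)
  rw [finrank_ext] at h1 h2
  have h3 : LinearMap.ker (gen A).mulVecLin ⊓ ext (FF σ K) Y ≤ ZZ A H ⊥ := by
    rintro z ⟨hz, hzY⟩
    refine ⟨?_, ext_mono hY hzY⟩
    change gen A *ᵥ z ∈ ext (FF σ K) ⊥
    have : gen A *ᵥ z = 0 := hz
    rw [this]
    exact Submodule.zero_mem _
  have h4 := Submodule.finrank_mono h3
  omega

/-- maximal tight subspaces -/
theorem exists_tight {A : σ → Matrix m n K} {H : Submodule K (n → K)}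
    (h1 : ∀ k, finrank K (H.map (A k).mulVecLin) ≤ 1) :
    ∃ T : Submodule K (n → K), T ≤ H ∧
      finrank K (im A T) + finrank (FF σ K) (ZZ A H ⊥) ≤ finrank K T ∧
      ∀ k, ZZ A H (im A T ⊔ H.map (A k).mulVecLin) ≤ ext (FF σ K) T := by
  set d := finrank (FF σ K) (ZZ A H ⊥) with hd
  set S : Set (Submodule K (n → K)) := {Y | Y ≤ H ∧ finrank K (im A Y) + d ≤ finrank K Y} with hS
  have hne : S.Nonempty := by
    obtain ⟨Y, hY, -, h2⟩ := rank_one h1 ⊥
    refine ⟨Y, hY, ?_⟩
    rw [sup_bot_eq, finrank_bot, zero_add] at h2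
    exact h2
  obtain ⟨T, hT, hmax⟩ := (wellFounded_gt (α := Submodule K (n → K))).has_min S hne
  refine ⟨T, hT.1, hT.2, fun k => ?_⟩
  set W := im A T ⊔ H.map (A k).mulVecLin with hW
  obtain ⟨Y, hY, hZY, h2⟩ := rank_one h1 W
  have hTZ : ext (FF σ K) T ≤ ZZ A H W := by
    intro z hz
    exact ⟨gen_mem le_sup_left hz, ext_mono hT.1 hz⟩
  have hTY : T ≤ Y := ext_le_ext_iff.1 (hTZ.trans hZY)
  have hWd : finrank K W ≤ finrank K (im A T) + 1 :=
    (Submodule.finrank_add_le_finrank_add_finrank _ _).trans (Nat.add_le_add_left (h1 k) _)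
  have h3 := Submodule.finrank_mono hTZ
  have h4 := Submodule.finrank_mono (le_sup_left : im A Y ≤ im A Y ⊔ W)
  have h5 := hT.2
  rw [finrank_ext] at h3
  -- the dimension of `ZZ A H W` is at most the dimension of `T`
  have h6 : finrank (FF σ K) (ZZ A H W) ≤ finrank K T := by
    by_contra hcon
    push Not at hcon
    have h7 : Y ∈ S := ⟨hY, by omega⟩
    have h8 : Y = T := by
      by_contra hne
      exact hmax Y h7 (lt_of_le_of_ne hTY (Ne.symm hne))
    have h9 := Submodule.finrank_mono hZY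
    rw [finrank_ext, h8] at h9
    omega
  rw [Submodule.eq_of_le_of_finrank_le hTZ (by rw [finrank_ext]; exact h6)]

omit [Fintype m] [DecidableEq m] in
theorem up_single (y : n → K) (i : n) : up (FF σ K) y i = algebraMap K (FF σ K) (y i) := rfl

theorem mul_map_mulVec {l : Type*} (Φ : Matrix l m K) (B : Matrix m n K) (v : n → FF σ K) :
    Φ.map (algebraMap K (FF σ K)) *ᵥ (B.map (algebraMap K (FF σ K)) *ᵥ v) =
      (Φ * B).map (algebraMap K (FF σ K)) *ᵥ v := by
  rw [mulVec_mulVec, Matrix.map_mul]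

theorem zero_of_kills {l : Type*} {H : Submodule K (n → K)} {B : Matrix l n K}
    (hB : ∀ w ∈ H, B *ᵥ w = 0) {v : n → FF σ K} (hv : v ∈ ext (FF σ K) H) :
    B.map (algebraMap K (FF σ K)) *ᵥ v = 0 := by
  funext a
  exact dot_of_mem hv fun w hw => congrFun (hB w hw) a

/-- The part of the system which does not involve the variable `k`. -/
theorem phi_gen (A : σ → Matrix m n K) (k : σ) (Φ : Matrix m m K) (v : n → FF σ K)
    (hv : (Φ * A k).map (algebraMap K (FF σ K)) *ᵥ v = 0) :
    Φ.map (algebraMap K (FF σ K)) *ᵥ (gen A *ᵥ v) =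
      ∑ j : {j : σ // j ≠ k}, tt K j.1 • ((Φ * A j.1).map (algebraMap K (FF σ K)) *ᵥ v) := by
  rw [gen_mulVec, mulVec_sum]
  have h1 : ∀ j, Φ.map (algebraMap K (FF σ K)) *ᵥ (tt K j •
      ((A j).map (algebraMap K (FF σ K)) *ᵥ v)) =
      tt K j • ((Φ * A j).map (algebraMap K (FF σ K)) *ᵥ v) := by
    intro j
    rw [mulVec_smul, mul_map_mulVec]
  simp only [h1]
  rw [Fintype.sum_eq_add_sum_subtype_ne _ k, hv, smul_zero, zero_add]

/-- a vector solution modulo the tight subspace has polynomial entries -/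
theorem poly_entries {A : σ → Matrix m n K} {H T : Submodule K (n → K)}
    (hZ : ∀ k, ZZ A H (im A T ⊔ H.map (A k).mulVecLin) ≤ ext (FF σ K) T)
    {h : n → FF σ K} (hh : h ∈ ext (FF σ K) H) {e : n → K}
    (hs : gen A *ᵥ (h + up (FF σ K) e) = 0) {ψ : n → K} (hψ : ∀ w ∈ T, ψ ⬝ᵥ w = 0) :
    ∃ p : MvPolynomial σ K, up (FF σ K) ψ ⬝ᵥ h = algebraMap _ (FF σ K) p := by
  refine is_poly _ fun k => ?_
  set W := im A T ⊔ H.map (A k).mulVecLin with hW
  obtain ⟨Φ, hΦ1, hΦ2⟩ := exists_ker W
  obtain ⟨Ψ, hΨ1, hΨ2⟩ := exists_ker H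
  let R' := MvPolynomial {j : σ // j ≠ k} K
  let θ : R' →+* FF σ K := (algebraMap (MvPolynomial σ K) (FF σ K)).comp
    (rename (R := K) (Subtype.val : {j : σ // j ≠ k} → σ)).toRingHom
  have hθi : Function.Injective θ := (IsFractionRing.injective (MvPolynomial σ K) (FF σ K)).comp
    (rename_injective _ Subtype.val_injective)
  have hθX : ∀ j : {j : σ // j ≠ k}, θ (X j) = tt K j.1 := by
    intro j
    change algebraMap (MvPolynomial σ K) (FF σ K) (rename Subtype.val (X j)) = _
    rw [rename_X]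
    rfl
  have hθC : ∀ c : K, θ (C c) = algebraMap K (FF σ K) c := by
    intro c
    change algebraMap (MvPolynomial σ K) (FF σ K) (rename Subtype.val (C c)) = _
    rw [rename_C, algebraMap_C]
  -- the matrix of the system
  let N : Matrix (m ⊕ n) n R' := Matrix.of fun i b =>
    Sum.elim (fun i => ∑ j : {j : σ // j ≠ k}, X j * C ((Φ * A j.1) i b)) (fun i => C (Ψ i b)) i
  have hNl : ∀ (v : n → FF σ K) (i : m), ∑ b, θ (N (Sum.inl i) b) * v b =
      (∑ j : {j : σ // j ≠ k}, tt K j.1 •
        ((Φ * A j.1).map (algebraMap K (FF σ K)) *ᵥ v)) i := by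
    intro v i
    simp only [N, Matrix.of_apply, Sum.elim_inl, map_sum, map_mul, hθX, hθC, Finset.sum_apply,
      Pi.smul_apply, smul_eq_mul, mulVec, dotProduct, Matrix.map_apply, Finset.sum_mul,
      Finset.mul_sum]
    rw [Finset.sum_comm]
    refine Finset.sum_congr rfl fun j _ => Finset.sum_congr rfl fun b _ => ?_
    ring
  have hNr : ∀ (v : n → FF σ K) (i : n), ∑ b, θ (N (Sum.inr i) b) * v b =
      (Ψ.map (algebraMap K (FF σ K)) *ᵥ v) i := by
    intro v i
    simp only [N, Matrix.of_apply, Sum.elim_inr, hθC, mulVec, dotProduct, Matrix.map_apply]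
  -- vectors of `H`
  have hAk : ∀ v ∈ ext (FF σ K) H, (Φ * A k).map (algebraMap K (FF σ K)) *ᵥ v = 0 := by
    intro v hv
    refine zero_of_kills (H := H) (fun w hw => ?_) hv
    rw [← mulVec_mulVec]
    exact hΦ1 _ (Submodule.mem_sup_right ⟨w, hw, rfl⟩)
  have hrow := row_space N (fun b => C (ψ b)) (fun y hy => by
    set v : n → FF σ K := fun b => θ (y b) with hv
    have e1 : ∀ i, ∑ b, θ (N i b) * v b = 0 := by
      intro i
      have := congrArg θ (congrFun hy i)
      rw [mulVec, dotProduct, map_sum, Pi.zero_apply, map_zero] at this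
      rw [← this]
      exact Finset.sum_congr rfl fun b _ => by rw [map_mul]
    have hvH : v ∈ ext (FF σ K) H := by
      have h1 := sub_mem_ext hΨ2 v
      have h2 : Ψ.map (algebraMap K (FF σ K)) *ᵥ v = 0 := by
        funext i
        rw [← hNr, e1]
        rfl
      rwa [h2, sub_zero] at h1
    have hvW : gen A *ᵥ v ∈ ext (FF σ K) W := by
      have h1 := sub_mem_ext hΦ2 (gen A *ᵥ v)
      have h2 : Φ.map (algebraMap K (FF σ K)) *ᵥ (gen A *ᵥ v) = 0 := by
        rw [phi_gen A k Φ v (hAk v hvH)]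
        funext i
        rw [← hNl, e1]
        rfl
      rwa [h2, sub_zero] at h1
    have hvT := hZ k ⟨hvW, hvH⟩
    have h3 := dot_of_mem hvT hψ
    apply hθi
    rw [map_zero, ← h3, dotProduct, map_sum, dotProduct]
    exact Finset.sum_congr rfl fun b _ => by rw [map_mul, hθC]; rfl)
  obtain ⟨r, a, hr, ha⟩ := hrow
  refine ⟨rename Subtype.val r, ?_, degreeOf_rename_ne k r,
    -∑ i : m, rename Subtype.val (a (Sum.inl i)) * ∑ j : σ, X j *
      C ((Φ *ᵥ (A j *ᵥ e)) i), ?_⟩
  · intro h0
    apply hr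
    apply rename_injective _ Subtype.val_injective
    rw [h0, map_zero]
  · -- the system for `h`
    have e2 : (∑ j : {j : σ // j ≠ k}, tt K j.1 •
        ((Φ * A j.1).map (algebraMap K (FF σ K)) *ᵥ h)) =
        - ∑ j, tt K j • up (FF σ K) (Φ *ᵥ (A j *ᵥ e)) := by
      rw [← phi_gen A k Φ h (hAk h hh)]
      rw [mulVec_add] at hs
      rw [eq_neg_of_add_eq_zero_left hs, mulVec_neg, gen_mulVec, mulVec_sum]
      congr 1
      refine Finset.sum_congr rfl fun j _ => ?_
      rw [mulVec_smul, up_mulVec, up_mulVec]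
    have e3 : Ψ.map (algebraMap K (FF σ K)) *ᵥ h = 0 := zero_of_kills hΨ1 hh
    have e4 : θ r * (up (FF σ K) ψ ⬝ᵥ h) = ∑ i, θ (a i) * ∑ b, θ (N i b) * h b := by
      have e5 : ∀ b, θ r * up (FF σ K) ψ b = ∑ i, θ (a i) * θ (N i b) := by
        intro b
        have := congrArg θ (congrFun ha b)
        rw [Pi.smul_apply, smul_eq_mul, map_mul, hθC, vecMul, dotProduct, map_sum] at this
        rw [up, this]
        exact Finset.sum_congr rfl fun i _ => by rw [map_mul]
      rw [dotProduct, Finset.mul_sum]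
      simp only [← mul_assoc, e5, Finset.mul_sum, Finset.sum_mul]
      rw [Finset.sum_comm]
    have hθr : θ r = algebraMap (MvPolynomial σ K) (FF σ K) (rename Subtype.val r) := rfl
    rw [← hθr, e4, Fintype.sum_sum_type]
    simp only [hNl, hNr, e2, e3]
    have hθa : ∀ i, θ (a i) = algebraMap (MvPolynomial σ K) (FF σ K)
      (rename Subtype.val (a i)) := fun i => rfl
    simp only [hθa, Pi.zero_apply, mul_zero, Finset.sum_const_zero, add_zero, map_neg,
      map_sum, map_mul, algebraMap_C, Pi.neg_apply, Finset.sum_apply, Pi.smul_apply, smul_eq_mul,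
      mul_neg, Finset.sum_neg_distrib]
    rfl

/-- A constant solution modulo the images of the tight subspace. -/
theorem const_solution {A : σ → Matrix m n K} {H T : Submodule K (n → K)} (hTH : T ≤ H)
    (hZ : ∀ k, ZZ A H (im A T ⊔ H.map (A k).mulVecLin) ≤ ext (FF σ K) T)
    {h : n → FF σ K} (hh : h ∈ ext (FF σ K) H) {e : n → K}
    (hs : gen A *ᵥ (h + up (FF σ K) e) = 0) :
    ∃ y ∈ H, ∀ k, A k *ᵥ (y + e) ∈ im A T := by
  obtain ⟨Θ, hΘ1, hΘ2⟩ := exists_ker T
  have hp : ∀ a, ∃ p : MvPolynomial σ K, up (FF σ K) (Θ a) ⬝ᵥ h = algebraMap _ (FF σ K) p :=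
    fun a => poly_entries hZ hh hs fun w hw => congrFun (hΘ1 w hw) a
  choose q hq using hp
  set h2 : n → FF σ K := fun a => algebraMap (MvPolynomial σ K) (FF σ K) (q a) with hh2
  have hh2' : h2 = Θ.map (algebraMap K (FF σ K)) *ᵥ h := by
    funext a
    exact (hq a).symm
  have hdT : h - h2 ∈ ext (FF σ K) T := by
    rw [hh2']
    exact sub_mem_ext hΘ2 h
  have hgW : gen A *ᵥ (h2 + up (FF σ K) e) ∈ ext (FF σ K) (im A T) := by
    have e1 : h2 + up (FF σ K) e = (h + up (FF σ K) e) - (h - h2) := by abel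
    rw [e1, mulVec_sub, hs, zero_sub]
    exact Submodule.neg_mem _ (gen_mem le_rfl hdT)
  have hh2H : h2 ∈ ext (FF σ K) H := by
    have e1 : h2 = h - (h - h2) := by abel
    rw [e1]
    exact Submodule.sub_mem _ hh (ext_mono hTH hdT)
  refine ⟨fun a => constantCoeff (q a), ?_, fun k => ?_⟩
  · obtain ⟨Ψ, hΨ1, hΨ2⟩ := exists_ker H
    have e3 : Ψ.map (algebraMap K (FF σ K)) *ᵥ h2 = 0 := zero_of_kills hΨ1 hh2H
    have e4 : Ψ *ᵥ (fun a => constantCoeff (q a)) = 0 := by
      funext i
      have e5 := congrFun e3 i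
      have e6 : ∑ b, C (Ψ i b) * q b = 0 := by
        apply IsFractionRing.injective (MvPolynomial σ K) (FF σ K)
        rw [map_zero, map_sum, ← Pi.zero_apply (M := fun _ : n => FF σ K) i, ← e5, mulVec,
          dotProduct]
        exact Finset.sum_congr rfl fun b _ => by rw [map_mul, algebraMap_C]; rfl
      have e7 := congrArg constantCoeff e6
      rw [map_sum, map_zero] at e7
      rw [mulVec, dotProduct, Pi.zero_apply, ← e7]
      exact Finset.sum_congr rfl fun b _ => by rw [map_mul, constantCoeff_C]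
    have e8 := hΨ2 fun a => constantCoeff (q a)
    rwa [e4, sub_zero] at e8
  · obtain ⟨Φ, hΦ1, hΦ2⟩ := exists_ker (im A T)
    have e3 : Φ.map (algebraMap K (FF σ K)) *ᵥ (gen A *ᵥ (h2 + up (FF σ K) e)) = 0 :=
      zero_of_kills hΦ1 hgW
    have e4 : Φ *ᵥ (A k *ᵥ ((fun a => constantCoeff (q a)) + e)) = 0 := by
      funext i
      have e5 := congrFun e3 i
      have e6 : ∑ j, X j * ∑ b, C ((Φ * A j) i b) * (q b + C (e b)) = 0 := by
        apply IsFractionRing.injective (MvPolynomial σ K) (FF σ K)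
        rw [map_zero, map_sum, ← Pi.zero_apply (M := fun _ : m => FF σ K) i, ← e5, gen_mulVec,
          mulVec_sum, Finset.sum_apply]
        refine Finset.sum_congr rfl fun j _ => ?_
        rw [mulVec_smul, mul_map_mulVec, Pi.smul_apply, smul_eq_mul, map_mul, map_sum]
        congr 1
        rw [mulVec, dotProduct]
        exact Finset.sum_congr rfl fun b _ => by
          rw [map_mul, algebraMap_C, map_add, algebraMap_C]; rfl
      have e7 := congrArg (coeff (Finsupp.single k 1)) e6
      rw [coeff_sum, coeff_zero, Finset.sum_eq_single k] at e7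
      · rw [mulVec_mulVec, mulVec, dotProduct, Pi.zero_apply]
        have e8 : coeff (Finsupp.single k 1) (X k * ∑ b, C ((Φ * A k) i b) * (q b + C (e b))) =
            constantCoeff (∑ b, C ((Φ * A k) i b) * (q b + C (e b))) := by
          rw [coeff_X_mul', if_pos (by simp), constantCoeff_eq]
          congr 1
          simp
        rw [e8, map_sum] at e7
        rw [← e7]
        exact Finset.sum_congr rfl fun b _ => by
          rw [map_mul, map_add, constantCoeff_C, constantCoeff_C]; rfl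
      · intro j _ hj
        rw [coeff_X_mul', if_neg]
        rw [Finsupp.support_single _ one_ne_zero, Finset.mem_singleton]
        exact hj
      · intro hk
        exact absurd (Finset.mem_univ _) hk
    have e8 := hΦ2 (A k *ᵥ ((fun a => constantCoeff (q a)) + e))
    rwa [e4, sub_zero] at e8

/-- **Main theorem.** -/
theorem main {A : σ → Matrix m n K} {H H1 : Submodule K (n → K)} (hle : H ≤ H1)
    (hc : finrank K H1 ≤ finrank K H + 1) (h1 : ∀ k, finrank K (H.map (A k).mulVecLin) ≤ 1) :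
    ∃ X : Submodule K (n → K), X ≤ H1 ∧ finrank K H1 + finrank K (im A X) ≤
      finrank (FF σ K) ((ext (FF σ K) H1).map (gen A).mulVecLin) + finrank K X := by
  obtain ⟨T, hTH, hTd, hTZ⟩ := exists_tight h1
  have hr := finrank_map_add (gen A).mulVecLin (ext (FF σ K) H1)
  rw [finrank_ext] at hr
  by_cases hcase : LinearMap.ker (gen A).mulVecLin ⊓ ext (FF σ K) H1 ≤ ext (FF σ K) H
  · have h2 : LinearMap.ker (gen A).mulVecLin ⊓ ext (FF σ K) H1 ≤ ZZ A H ⊥ := by
      intro z hz
      refine ⟨?_, hcase hz⟩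
      change gen A *ᵥ z ∈ ext (FF σ K) ⊥
      have : gen A *ᵥ z = 0 := hz.1
      rw [this]
      exact Submodule.zero_mem _
    have h3 := Submodule.finrank_mono h2
    exact ⟨T, hTH.trans hle, by omega⟩
  · obtain ⟨z, ⟨hz0, hz1⟩, hzH⟩ := Set.not_subset.1 hcase
    have hz0' : gen A *ᵥ z = 0 := hz0
    -- a vector outside the hyperplane
    obtain ⟨e, he1, heH⟩ : ∃ e ∈ H1, e ∉ H := by
      by_contra hcon
      push Not at hcon
      exact hzH (ext_mono hcon hz1)
    have hlt : H < H ⊔ Submodule.span K {e} := by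
      refine lt_of_le_of_ne le_sup_left fun h0 => heH ?_
      rw [h0]
      exact Submodule.mem_sup_right (Submodule.mem_span_singleton_self _)
    have hsup : H ⊔ Submodule.span K {e} = H1 := by
      refine Submodule.eq_of_le_of_finrank_le (sup_le hle ?_) ?_
      · rw [Submodule.span_singleton_le_iff_mem]
        exact he1
      · have := Submodule.finrank_lt_finrank_of_lt hlt
        omega
    rw [← hsup, ext_sup, ext_span_singleton] at hz1
    obtain ⟨h, hh, c', hc', hzc⟩ := Submodule.mem_sup.1 hz1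
    obtain ⟨c, rfl⟩ := Submodule.mem_span_singleton.1 hc'
    have hc0 : c ≠ 0 := by
      rintro rfl
      apply hzH
      rw [← hzc, zero_smul, add_zero]
      exact hh
    have hs : gen A *ᵥ (c⁻¹ • h + up (FF σ K) e) = 0 := by
      have e1 : c⁻¹ • h + up (FF σ K) e = c⁻¹ • z := by
        rw [← hzc, smul_add, smul_smul, inv_mul_cancel₀ hc0, one_smul]
      rw [e1, mulVec_smul, hz0', smul_zero]
    obtain ⟨y, hy, hyW⟩ := const_solution hTH hTZ (Submodule.smul_mem _ _ hh) hs
    have hye : y + e ∉ H := by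
      intro h0
      apply heH
      have := H.sub_mem h0 hy
      rwa [add_sub_cancel_left] at this
    refine ⟨T ⊔ Submodule.span K {y + e}, ?_, ?_⟩
    · refine sup_le (hTH.trans hle) ?_
      rw [Submodule.span_singleton_le_iff_mem]
      exact H1.add_mem (hle hy) he1
    · have h2 : im A (T ⊔ Submodule.span K {y + e}) ≤ im A T := by
        rw [im_le]
        intro k u hu
        obtain ⟨a, ha, b, hb, rfl⟩ := Submodule.mem_sup.1 hu
        obtain ⟨c, rfl⟩ := Submodule.mem_span_singleton.1 hb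
        rw [mulVec_add, mulVec_smul]
        exact Submodule.add_mem _ (mem_im ha k) (Submodule.smul_mem _ _ (hyW k))
      have h3 := Submodule.finrank_mono h2
      have h4 : T < T ⊔ Submodule.span K {y + e} := by
        refine lt_of_le_of_ne le_sup_left fun h0 => hye (hTH ?_)
        rw [h0]
        exact Submodule.mem_sup_right (Submodule.mem_span_singleton_self _)
      have h5 := Submodule.finrank_lt_finrank_of_lt h4
      -- the kernel
      set Z1 : Submodule (FF σ K) (n → FF σ K) :=
        LinearMap.ker (gen A).mulVecLin ⊓ ext (FF σ K) H1 with hZ1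
      have h6 := Submodule.finrank_sup_add_finrank_inf_eq Z1 (ext (FF σ K) H)
      have h7 : Z1 ⊓ ext (FF σ K) H ≤ ZZ A H ⊥ := by
        rintro v ⟨⟨hv, -⟩, hvH⟩
        refine ⟨?_, hvH⟩
        change gen A *ᵥ v ∈ ext (FF σ K) ⊥
        have : gen A *ᵥ v = 0 := hv
        rw [this]
        exact Submodule.zero_mem _
      have h8 : Z1 ⊔ ext (FF σ K) H ≤ ext (FF σ K) H1 := sup_le inf_le_right (ext_mono hle)
      have h9 := Submodule.finrank_mono h7
      have h10 := Submodule.finrank_mono h8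
      rw [finrank_ext] at h6 h10
      omega

end Pool.Agent.W981.Hyp
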