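import Pool.Agent.W981.Hyp.Shift

/-!
# Denominators
-/

set_option autoImplicit false
set_option linter.unusedSectionVars false

namespace Pool.Agent.W981.Hyp

open Module Matrix MvPolynomial

section domain

/-- Over a domain: a vector orthogonal to the kernel of a matrix is, up to a nonzero scalar, in the
row space. -/
theorem row_space {R : Type*} [CommRing R] [IsDomain R] {I n : Type*} [Fintype I] [Fintype n]
    [DecidableEq I] (N : Matrix I n R) (ψ : n → R) (h : ∀ y : n → R, N *ᵥ y = 0 → ψ ⬝ᵥ y = 0) :
    ∃ (r : R) (a : I → R), r ≠ 0 ∧ r • ψ = a ᵥ* N := by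
  classical
  set G := FractionRing R
  let rows : I → ((n → G) →ₗ[G] G) := fun i =>
    { toFun := fun y => (fun b => algebraMap R G (N i b)) ⬝ᵥ y
      map_add' := fun x y => dotProduct_add _ _ _
      map_smul' := fun c x => dotProduct_smul _ _ _ }
  let ps : (n → G) →ₗ[G] G :=
    { toFun := fun y => (fun b => algebraMap R G (ψ b)) ⬝ᵥ y
      map_add' := fun x y => dotProduct_add _ _ _
      map_smul' := fun c x => dotProduct_smul _ _ _ }
  have hker : ⨅ i, LinearMap.ker (rows i) ≤ LinearMap.ker ps := by
    intro y hy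
    rw [Submodule.mem_iInf] at hy
    obtain ⟨b, hb⟩ := IsLocalization.exist_integer_multiples_of_finite (nonZeroDivisors R) y
    choose v hv using hb
    have hb0 : algebraMap R G b ≠ 0 := by
      rw [Ne, FaithfulSMul.algebraMap_eq_zero_iff]
      exact nonZeroDivisors.coe_ne_zero b
    have hv' : ∀ a, algebraMap R G (v a) = algebraMap R G b * y a := by
      intro a
      rw [hv a, Algebra.smul_def]
    have h1 : N *ᵥ v = 0 := by
      funext i
      have h2 : (fun b => algebraMap R G (N i b)) ⬝ᵥ y = 0 := hy i
      have h3 : algebraMap R G ((N *ᵥ v) i) = 0 := by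
        rw [mulVec, dotProduct, map_sum]
        rw [dotProduct] at h2
        calc ∑ x, algebraMap R G (N i x * v x) = algebraMap R G b *
            ∑ x, algebraMap R G (N i x) * y x := by
              rw [Finset.mul_sum]
              refine Finset.sum_congr rfl fun x _ => ?_
              rw [map_mul, hv']
              ring
          _ = 0 := by rw [h2, mul_zero]
      rw [FaithfulSMul.algebraMap_eq_zero_iff] at h3
      exact h3
    have h4 := h v h1
    rw [LinearMap.mem_ker]
    change (fun b => algebraMap R G (ψ b)) ⬝ᵥ y = 0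
    have h5 : algebraMap R G b * ((fun b => algebraMap R G (ψ b)) ⬝ᵥ y) = 0 := by
      rw [dotProduct, Finset.mul_sum]
      calc ∑ x, algebraMap R G b * (algebraMap R G (ψ x) * y x) =
          ∑ x, algebraMap R G (ψ x * v x) := by
            refine Finset.sum_congr rfl fun x _ => ?_
            rw [map_mul, hv']
            ring
        _ = algebraMap R G (ψ ⬝ᵥ v) := by rw [dotProduct, map_sum]
        _ = 0 := by rw [h4, map_zero]
    exact (mul_eq_zero.1 h5).resolve_left hb0
  have hmem := mem_span_of_iInf_ker_le_ker hker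
  rw [Submodule.mem_span_range_iff_exists_fun] at hmem
  obtain ⟨c, hc⟩ := hmem
  obtain ⟨b, hb⟩ := IsLocalization.exist_integer_multiples_of_finite (nonZeroDivisors R) c
  choose a ha using hb
  refine ⟨b, a, nonZeroDivisors.coe_ne_zero b, ?_⟩
  funext x
  apply IsFractionRing.injective R G
  have h1 := congrArg (fun f => f (Pi.single x 1)) hc
  simp only [LinearMap.coe_sum, Finset.sum_apply, LinearMap.smul_apply] at h1
  have h2 : ∀ i, rows i (Pi.single x 1) = algebraMap R G (N i x) := by
    intro i
    change (fun b => algebraMap R G (N i b)) ⬝ᵥ (Pi.single x 1) = _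
    rw [dotProduct_single, mul_one]
  have h3 : ps (Pi.single x 1) = algebraMap R G (ψ x) := by
    change (fun b => algebraMap R G (ψ b)) ⬝ᵥ (Pi.single x 1) = _
    rw [dotProduct_single, mul_one]
  simp only [h2, h3, smul_eq_mul] at h1
  rw [Pi.smul_apply, smul_eq_mul, map_mul, ← h1, vecMul, dotProduct, map_sum, Finset.mul_sum]
  refine Finset.sum_congr rfl fun i _ => ?_
  rw [map_mul, ha i, Algebra.smul_def]
  ring

end domain

section denominators

variable {σ K : Type*} [Field K]

/-- A rational function which has, for every variable, a denominator not involving this variable,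
is a polynomial. -/
theorem is_poly (f : FF σ K) (h : ∀ k : σ, ∃ r : MvPolynomial σ K, r ≠ 0 ∧ degreeOf k r = 0 ∧
    ∃ p : MvPolynomial σ K, algebraMap _ (FF σ K) r * f = algebraMap _ (FF σ K) p) :
    ∃ p : MvPolynomial σ K, f = algebraMap _ (FF σ K) p := by
  classical
  obtain ⟨a, b, hab, hf⟩ := IsFractionRing.exists_reduced_fraction (A := MvPolynomial σ K) f
  have hb0 : (b : MvPolynomial σ K) ≠ 0 := nonZeroDivisors.coe_ne_zero b
  have hb0' : algebraMap (MvPolynomial σ K) (FF σ K) b ≠ 0 := by
    rw [Ne, FaithfulSMul.algebraMap_eq_zero_iff]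
    exact hb0
  have hf' : algebraMap (MvPolynomial σ K) (FF σ K) b * f = algebraMap _ _ a := by
    rw [← hf, mul_comm]
    exact IsLocalization.mk'_spec _ _ _
  have hdeg : ∀ k, degreeOf k (b : MvPolynomial σ K) = 0 := by
    intro k
    obtain ⟨r, hr0, hr, p, hp⟩ := h k
    have h1 : r * a = b * p := by
      apply IsFractionRing.injective (MvPolynomial σ K) (FF σ K)
      rw [map_mul, map_mul, ← hp, ← hf']
      ring
    have h2 : (b : MvPolynomial σ K) ∣ r := by
      refine IsRelPrime.dvd_of_dvd_mul_right (hab.symm) ⟨p, h1⟩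
    obtain ⟨q, rfl⟩ := h2
    rw [degreeOf_mul_eq hb0 (right_ne_zero_of_mul hr0)] at hr
    omega
  have hC : ∃ c : K, (b : MvPolynomial σ K) = C c := by
    have h1 : (b : MvPolynomial σ K).vars = ∅ := by
      rw [Finset.eq_empty_iff_forall_notMem]
      intro k hk
      have h2 := hdeg k
      rw [degreeOf_def, Multiset.count_eq_zero] at h2
      rw [vars_def, Multiset.mem_toFinset] at hk
      exact h2 hk
    exact ⟨_, vars_eq_empty_iff_eq_C.1 h1⟩
  obtain ⟨c, hc⟩ := hC
  have hc0 : c ≠ 0 := by
    rintro rfl
    rw [C_0] at hc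
    exact hb0 hc
  refine ⟨C c⁻¹ * a, ?_⟩
  rw [map_mul, ← hf', hc, ← mul_assoc, ← map_mul, ← C_mul, inv_mul_cancel₀ hc0, C_1, map_one,
    one_mul]

/-- polynomials in the variables different from `k` do not involve `x_k` -/
theorem degreeOf_rename_ne (k : σ) (r : MvPolynomial {j : σ // j ≠ k} K) :
    degreeOf k (rename Subtype.val r) = 0 := by
  classical
  rw [degreeOf_def, Multiset.count_eq_zero, degrees_rename_of_injective Subtype.val_injective,
    Multiset.mem_map]
  rintro ⟨j, -, hj⟩
  exact j.2 hj

end denominators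

end Pool.Agent.W981.Hyp
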