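import Pool.Agent.W981.Hyp.Core2

/-!
# Rank one matrices modulo one matrix
-/

set_option autoImplicit false
set_option linter.unusedSectionVars false

namespace Pool.Agent.W981.Hyp

open Module Matrix MvPolynomial

section wrap

variable {σ K : Type*} [Field K] [DecidableEq σ] [Fintype σ] {n m : Type*} [Fintype n] [Fintype m]
  [DecidableEq m] [DecidableEq n]

theorem wrap (A : σ → Matrix m n K)
    (h : ∀ w : m → FF σ K, (∀ y ∈ ext (FF σ K) (hull K (LinearMap.ker (gen A).mulVecLin)),
      w ⬝ᵥ (gen A *ᵥ y) = 0) →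
      ∀ k, ∀ y ∈ ext (FF σ K) (hull K (LinearMap.ker (gen A).mulVecLin)),
      w ⬝ᵥ ((A k).map (algebraMap K (FF σ K)) *ᵥ y) = 0) :
    ∃ X : Submodule K (n → K), Fintype.card n + finrank K (im A X) ≤
      (gen A).rank + finrank K X := by
  set X := hull K (LinearMap.ker (gen A).mulVecLin) with hX
  set LX : Submodule (FF σ K) (m → FF σ K) := (ext (FF σ K) X).map (gen A).mulVecLin with hLX
  refine ⟨X, ?_⟩
  have hle : ext (FF σ K) (im A X) ≤ LX := by
    obtain ⟨P, hP1, hP2⟩ := exists_ker LX
    have hrow : ∀ a, ∀ k, ∀ y ∈ ext (FF σ K) X,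
        P a ⬝ᵥ ((A k).map (algebraMap K (FF σ K)) *ᵥ y) = 0 := by
      intro a
      refine h (P a) fun y hy => ?_
      exact congrFun (hP1 _ ⟨y, hy, rfl⟩) a
    rw [ext_le_iff]
    intro u hu
    have h0 : P *ᵥ up (FF σ K) u = 0 := by
      funext a
      change P a ⬝ᵥ up (FF σ K) u = 0
      rw [im] at hu
      induction hu using Submodule.iSup_induction' with
      | zero => rw [up_zero, dotProduct_zero]
      | add x y _ _ hx hy => rw [up_add, dotProduct_add, hx, hy, add_zero]
      | mem k x hx =>
        obtain ⟨y, hy, rfl⟩ := hx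
        rw [mulVecLin_apply, ← up_mulVec]
        exact hrow a k _ (up_mem hy)
    have h1 := hP2 (up (FF σ K) u)
    rwa [h0, sub_zero] at h1
  have h1 := finrank_map_add (gen A).mulVecLin (ext (FF σ K) X)
  have h2 : LinearMap.ker (gen A).mulVecLin ⊓ ext (FF σ K) X =
      LinearMap.ker (gen A).mulVecLin := inf_eq_left.2 (le_ext_hull _)
  have h3 := LinearMap.finrank_range_add_finrank_ker (gen A).mulVecLin
  rw [finrank_fintype_fun_eq_card] at h3
  change (gen A).rank + _ = _ at h3
  have h4 := Submodule.finrank_mono hle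
  rw [h2, finrank_ext, ← hLX] at h1
  rw [finrank_ext] at h4
  omega

theorem mulVec_rank_one {K F : Type*} [Field K] [Field F] [Algebra K F] {n m : Type*} [Fintype n]
    [Fintype m] (u : m → K) (v : n → K) (y : n → F) :
    (vecMulVec u v).map (algebraMap K F) *ᵥ y = (up F v ⬝ᵥ y) • up F u := by
  funext a
  simp only [mulVec, dotProduct, Matrix.map_apply, vecMulVec_apply, map_mul, up, Pi.smul_apply,
    smul_eq_mul, Finset.sum_mul]
  exact Finset.sum_congr rfl fun b _ => by ring

end wrap

section cases

variable {s : ℕ} {K : Type*} [Field K] [CharZero K] {n m : Type*} [Fintype n]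
  [Fintype m] [DecidableEq m] [DecidableEq n]

theorem two_ne {s : ℕ} {K : Type*} [Field K] [CharZero K] : (2 : FF (Fin s) K) ≠ 0 := by
  have h : ((2 : ℕ) : MvPolynomial (Fin s) K) ≠ 0 := Nat.cast_ne_zero.2 (by norm_num)
  have h2 : algebraMap (MvPolynomial (Fin s) K) (FF (Fin s) K) ((2 : ℕ) : MvPolynomial (Fin s) K)
      ≠ 0 := by
    rw [Ne, FaithfulSMul.algebraMap_eq_zero_iff]
    exact h
  rw [map_natCast] at h2
  exact_mod_cast h2

theorem tt_ne_zero {s : ℕ} {K : Type*} [Field K] (j : Fin s) : tt K j ≠ 0 := by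
  intro h
  have h1 := congrArg (dF j) h
  rw [map_zero, dF_tt, if_pos rfl] at h1
  exact one_ne_zero h1

theorem tt_sum_ne {s : ℕ} {K : Type*} [Field K] {lam : Fin s → K} {k : Fin s} (hk : lam k ≠ 0) :
    ∑ j, tt K j * algebraMap K (FF (Fin s) K) (lam j) ≠ 0 := by
  intro h
  have h1 := congrArg (dF k) h
  rw [map_zero, map_sum, Finset.sum_eq_single k] at h1
  · rw [Derivation.leibniz, Derivation.map_algebraMap, smul_zero, zero_add, dF_tt, if_pos rfl,
      smul_eq_mul, mul_one, map_eq_zero] at h1
    exact hk h1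
  · intro b _ hb
    rw [Derivation.leibniz, Derivation.map_algebraMap, smul_zero, zero_add, dF_tt, if_neg hb,
      smul_zero]
  · intro h2
    exact absurd (Finset.mem_univ _) h2

/-- **Case A.** -/
theorem caseA (A : Fin s → Matrix m n K) (C : Matrix m n K) (lam : Fin s → K)
    (u : Fin s → m → K) (v : Fin s → n → K)
    (hA : ∀ k, A k = lam k • C + vecMulVec (u k) (v k)) :
    ∃ X : Submodule K (n → K), Fintype.card n + finrank K (im A X) ≤
      (gen A).rank + finrank K X := by
  classical
  refine wrap A fun w hw => ?_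
  set X := hull K (LinearMap.ker (gen A).mulVecLin) with hX

  -- the images
  have hAk : ∀ k (y : n → (FF (Fin s) K)), w ⬝ᵥ ((A k).map (algebraMap K (FF (Fin s) K)) *ᵥ y) =
      algebraMap K (FF (Fin s) K) (lam k) * (w ⬝ᵥ (C.map (algebraMap K (FF (Fin s) K)) *ᵥ y)) +
        (up (FF (Fin s) K) (v k) ⬝ᵥ y) * (w ⬝ᵥ up (FF (Fin s) K) (u k)) := by
    intro k y
    have e1 : (A k).map (algebraMap K (FF (Fin s) K)) = algebraMap K (FF (Fin s) K) (lam k) • C.map (algebraMap K (FF (Fin s) K)) +
        (vecMulVec (u k) (v k)).map (algebraMap K (FF (Fin s) K)) := by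
      ext a b
      simp [hA k, Algebra.smul_def]
    rw [e1, add_mulVec, smul_mulVec, mulVec_rank_one, dotProduct_add, dotProduct_smul,
      dotProduct_smul, smul_eq_mul, smul_eq_mul]
  have hzX : ∀ z, gen A *ᵥ z = 0 → z ∈ ext (FF (Fin s) K) X := fun z hz => le_ext_hull _ hz
  have h1 : ∀ z, gen A *ᵥ z = 0 → ∀ k, algebraMap K (FF (Fin s) K) (lam k) *
      (w ⬝ᵥ (C.map (algebraMap K (FF (Fin s) K)) *ᵥ z)) + (up (FF (Fin s) K) (v k) ⬝ᵥ z) * (w ⬝ᵥ up (FF (Fin s) K) (u k)) = 0 := by
    intro z hz k
    rw [← hAk]
    exact first_order A hw (hzX z hz) hz k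
  have hwL : ∀ y ∈ ext (FF (Fin s) K) X, (∑ j, tt K j * algebraMap K (FF (Fin s) K) (lam j)) *
      (w ⬝ᵥ (C.map (algebraMap K (FF (Fin s) K)) *ᵥ y)) +
      ∑ j, tt K j * ((up (FF (Fin s) K) (v j) ⬝ᵥ y) * (w ⬝ᵥ up (FF (Fin s) K) (u j))) = 0 := by
    intro y hy
    rw [← hw y hy, gen_mulVec, dotProduct_sum, Finset.sum_mul, ← Finset.sum_add_distrib]
    refine Finset.sum_congr rfl fun j _ => ?_
    rw [dotProduct_smul, hAk, smul_eq_mul]
    ring
  -- a functional which vanishes on the kernel vanishes on the hull
  have hvan : ∀ k, (∀ z, gen A *ᵥ z = 0 → (up (FF (Fin s) K) (v k) ⬝ᵥ z) * (w ⬝ᵥ up (FF (Fin s) K) (u k)) = 0) →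
      ∀ y ∈ ext (FF (Fin s) K) X, (up (FF (Fin s) K) (v k) ⬝ᵥ y) * (w ⬝ᵥ up (FF (Fin s) K) (u k)) = 0 := by
    intro k hk y hy
    by_cases ha : w ⬝ᵥ up (FF (Fin s) K) (u k) = 0
    · rw [ha, mul_zero]
    · rw [vanish hX (ψ := v k) (fun z hz => (mul_eq_zero.1 (hk z hz)).resolve_right ha) hy,
        zero_mul]
  by_cases hβ : ∀ z, gen A *ᵥ z = 0 → w ⬝ᵥ (C.map (algebraMap K (FF (Fin s) K)) *ᵥ z) = 0
  · -- trivial case
    have h2 : ∀ k, ∀ y ∈ ext (FF (Fin s) K) X, (up (FF (Fin s) K) (v k) ⬝ᵥ y) * (w ⬝ᵥ up (FF (Fin s) K) (u k)) = 0 := fun k =>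
      hvan k fun z hz => by
        have := h1 z hz k
        rwa [hβ z hz, mul_zero, zero_add] at this
    intro k y hy
    rw [hAk, h2 k y hy, add_zero]
    by_cases hk : lam k = 0
    · rw [hk, map_zero, zero_mul]
    · have h3 := hwL y hy
      rw [Finset.sum_eq_zero (s := Finset.univ) (f := fun j => tt K j *
        ((up (FF (Fin s) K) (v j) ⬝ᵥ y) * (w ⬝ᵥ up (FF (Fin s) K) (u j)))) (fun j _ => by rw [h2 j y hy, mul_zero]),
        add_zero] at h3
      rw [(mul_eq_zero.1 h3).resolve_left (tt_sum_ne hk), mul_zero]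
  · push Not at hβ
    obtain ⟨z, hz, hβz⟩ := hβ
    -- the indices
    let J := {k : Fin s // lam k ≠ 0}
    let Δ : J → Derivation K (FF (Fin s) K) (FF (Fin s) K) := fun i => (lam i.1)⁻¹ • dF i.1
    have hcore : Core X (gen A) w z (fun i : J => lam i.1) (fun i => u i.1) (fun i => v i.1) Δ :=
      { hw := hw
        hzX := hzX z hz
        hz := hz
        hα := fun i => i.2
        hcomm := by
          intro i j f
          simp only [Δ, Derivation.smul_apply, Derivation.map_smul]
          rw [dF_comm, smul_comm]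
        hL := by
          intro i j y
          rw [dv_gen]
          congr 1
          have e1 : ∀ (i : J) (k : Fin s), Δ i (tt K k) =
              if k = i.1 then algebraMap K (FF (Fin s) K) (lam i.1)⁻¹ else 0 := by
            intro i k
            simp only [Δ, Derivation.smul_apply, dF_tt]
            split_ifs
            · rw [Algebra.smul_def, mul_one]
            · rw [smul_zero]
          have e2 : ∀ (i : J), ∑ k, Δ i (tt K k) • ((A k).map (algebraMap K (FF (Fin s) K)) *ᵥ y) =
              C.map (algebraMap K (FF (Fin s) K)) *ᵥ y +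
                (algebraMap K (FF (Fin s) K) (lam i.1)⁻¹ * (up (FF (Fin s) K) (v i.1) ⬝ᵥ y)) • up (FF (Fin s) K) (u i.1) := by
            intro i
            rw [Finset.sum_eq_single i.1]
            · rw [e1, if_pos rfl]
              have e3 : (A i.1).map (algebraMap K (FF (Fin s) K)) =
                  algebraMap K (FF (Fin s) K) (lam i.1) • C.map (algebraMap K (FF (Fin s) K)) +
                  (vecMulVec (u i.1) (v i.1)).map (algebraMap K (FF (Fin s) K)) := by
                ext a b
                simp [hA i.1, Algebra.smul_def]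
              rw [e3, add_mulVec, smul_mulVec, mulVec_rank_one, smul_add, smul_smul, ← map_mul,
                inv_mul_cancel₀ i.2, map_one, one_smul, smul_smul]
            · intro b _ hb
              rw [e1, if_neg hb, zero_smul]
            · intro h
              exact absurd (Finset.mem_univ _) h
          have e4 : ∀ k, (Δ i - Δ j) (tt K k) • ((A k).map (algebraMap K (FF (Fin s) K)) *ᵥ y) =
              Δ i (tt K k) • ((A k).map (algebraMap K (FF (Fin s) K)) *ᵥ y) -
              Δ j (tt K k) • ((A k).map (algebraMap K (FF (Fin s) K)) *ᵥ y) := by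
            intro k
            rw [Derivation.sub_apply, sub_smul]
          simp only [e4, Finset.sum_sub_distrib, e2]
          abel
        hlog := by
          intro i j b c hc h2 h3
          exact (((dF_const i.1).smul _).sub ((dF_const j.1).smul _)).log hc h2 h3
        hne := by
          intro i h0
          have h2 := h1 z hz i.1
          rw [mul_comm (up (FF (Fin s) K) (v i.1) ⬝ᵥ z), h0, add_zero] at h2
          rcases mul_eq_zero.1 h2 with h3 | h3
          · rw [map_eq_zero] at h3
            exact i.2 h3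
          · exact hβz h3 }
    -- the indices outside
    have hout : ∀ k, lam k = 0 → ∀ y ∈ ext (FF (Fin s) K) X, (up (FF (Fin s) K) (v k) ⬝ᵥ y) * (w ⬝ᵥ up (FF (Fin s) K) (u k)) = 0 :=
      fun k hk => hvan k fun z hz => by
        have := h1 z hz k
        rwa [hk, map_zero, zero_mul, zero_add] at this
    -- the ratios are constants
    have hconst : ∀ i j : J, ∃ c : K, gg (FF (Fin s) K) z (fun i : J => lam i.1) (fun i => v i.1) i /
        gg (FF (Fin s) K) z (fun i : J => lam i.1) (fun i => v i.1) j = algebraMap K (FF (Fin s) K) c := by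
      intro i j
      set c := gg (FF (Fin s) K) z (fun i : J => lam i.1) (fun i => v i.1) i /
        gg (FF (Fin s) K) z (fun i : J => lam i.1) (fun i => v i.1) j with hc
      refine const_of_dF c fun k => ?_
      have e1 : ∀ k, dF k c = algebraMap K (FF (Fin s) K) (lam k) * Δ i c := by
        intro k
        by_cases hk : lam k = 0
        · rw [hk, map_zero, zero_mul]
          refine hcore.deriv_zero (dF k) (fun y => (A k).map (algebraMap K (FF (Fin s) K)) *ᵥ y)
            (dv_gen_single A k) (fun y hy => ?_) i j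
          rw [hAk, hk, map_zero, zero_mul, zero_add]
          exact hout k hk y hy
        · have e2 := hcore.const two_ne ⟨k, hk⟩ i i j
          rw [← hc, Derivation.sub_apply, sub_eq_zero] at e2
          rw [← e2]
          simp only [Δ, Derivation.smul_apply]
          rw [Algebra.smul_def, ← mul_assoc, ← map_mul, mul_inv_cancel₀ hk, map_one, one_mul]
      have e2 : euler (Fin s) K c = 0 :=
        hcore.deriv_zero (euler (Fin s) K) (fun y => gen A *ᵥ y) (dv_gen_euler A) hw i j
      rw [euler_apply] at e2
      simp only [e1] at e2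
      have e3 : (∑ j, tt K j * algebraMap K (FF (Fin s) K) (lam j)) * Δ i c = 0 := by
        rw [Finset.sum_mul, ← e2]
        exact Finset.sum_congr rfl fun j _ => by ring
      rw [e1, (mul_eq_zero.1 e3).resolve_left (tt_sum_ne i.2), mul_zero]
    -- conclusion
    intro k y hy
    rw [hAk]
    by_cases hk : lam k = 0
    · rw [hk, map_zero, zero_mul, zero_add]
      exact hout k hk y hy
    · set ν := algebraMap K (FF (Fin s) K) (lam k)⁻¹ * (up (FF (Fin s) K) (v k) ⬝ᵥ y) * (w ⬝ᵥ up (FF (Fin s) K) (u k)) with hν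
      have e1 : ∀ j, (up (FF (Fin s) K) (v j) ⬝ᵥ y) * (w ⬝ᵥ up (FF (Fin s) K) (u j)) = algebraMap K (FF (Fin s) K) (lam j) * ν := by
        intro j
        by_cases hj : lam j = 0
        · rw [hj, map_zero, zero_mul]
          exact hout j hj y hy
        · have e2 := hcore.agree hX hconst hy ⟨j, hj⟩ ⟨k, hk⟩
          simp only at e2
          rw [← hν] at e2
          rw [← e2, ← mul_assoc, ← mul_assoc, ← map_mul, mul_inv_cancel₀ hj, map_one, one_mul]
      have e2 := hwL y hy
      simp only [e1] at e2
      have e3 : (∑ j, tt K j * algebraMap K (FF (Fin s) K) (lam j)) *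
          (w ⬝ᵥ (C.map (algebraMap K (FF (Fin s) K)) *ᵥ y) + ν) = 0 := by
        rw [mul_add, Finset.sum_mul _ _ ν, ← e2]
        congr 1
        exact Finset.sum_congr rfl fun j _ => by ring
      have e4 := (mul_eq_zero.1 e3).resolve_left (tt_sum_ne hk)
      rw [e1 k, ← mul_add, e4, mul_zero]

/-- **Case B.** -/
theorem caseB (A : Fin s → Matrix m n K) (e : Fin s) (u0 : m → K) (v0 : n → K) (lam : Fin s → K)
    (u : Fin s → m → K) (v : Fin s → n → K)
    (hA : ∀ k, k ≠ e → A k = lam k • vecMulVec u0 v0 + vecMulVec (u k) (v k)) :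
    ∃ X : Submodule K (n → K), Fintype.card n + finrank K (im A X) ≤
      (gen A).rank + finrank K X := by
  classical
  refine wrap A fun w hw => ?_
  set X := hull K (LinearMap.ker (gen A).mulVecLin) with hX
  -- the images
  have hAk : ∀ k, k ≠ e → ∀ (y : n → (FF (Fin s) K)),
      w ⬝ᵥ ((A k).map (algebraMap K (FF (Fin s) K)) *ᵥ y) =
      algebraMap K (FF (Fin s) K) (lam k) *
        ((up (FF (Fin s) K) v0 ⬝ᵥ y) * (w ⬝ᵥ up (FF (Fin s) K) u0)) +
        (up (FF (Fin s) K) (v k) ⬝ᵥ y) * (w ⬝ᵥ up (FF (Fin s) K) (u k)) := by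
    intro k hk y
    have e1 : (A k).map (algebraMap K (FF (Fin s) K)) = algebraMap K (FF (Fin s) K) (lam k) •
        (vecMulVec u0 v0).map (algebraMap K (FF (Fin s) K)) +
        (vecMulVec (u k) (v k)).map (algebraMap K (FF (Fin s) K)) := by
      ext a b
      simp [hA k hk, Algebra.smul_def]
    rw [e1, add_mulVec, smul_mulVec, mulVec_rank_one, mulVec_rank_one, dotProduct_add,
      dotProduct_smul, dotProduct_smul, dotProduct_smul, smul_eq_mul, smul_eq_mul, smul_eq_mul]
  have hzX : ∀ z, gen A *ᵥ z = 0 → z ∈ ext (FF (Fin s) K) X := fun z hz => le_ext_hull _ hz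
  have h1 : ∀ z, gen A *ᵥ z = 0 → ∀ k, k ≠ e → algebraMap K (FF (Fin s) K) (lam k) *
      ((up (FF (Fin s) K) v0 ⬝ᵥ z) * (w ⬝ᵥ up (FF (Fin s) K) u0)) +
      (up (FF (Fin s) K) (v k) ⬝ᵥ z) * (w ⬝ᵥ up (FF (Fin s) K) (u k)) = 0 := by
    intro z hz k hk
    rw [← hAk k hk]
    exact first_order A hw (hzX z hz) hz k
  -- the exempt matrix comes for free
  have hfree : ∀ y ∈ ext (FF (Fin s) K) X,
      (∀ k, k ≠ e → w ⬝ᵥ ((A k).map (algebraMap K (FF (Fin s) K)) *ᵥ y) = 0) →
      ∀ k, w ⬝ᵥ ((A k).map (algebraMap K (FF (Fin s) K)) *ᵥ y) = 0 := by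
    intro y hy h k
    by_cases hk : k = e
    · subst hk
      have h2 := hw y hy
      rw [gen_mulVec, dotProduct_sum, Finset.sum_eq_single k] at h2
      · rw [dotProduct_smul, smul_eq_mul] at h2
        exact (mul_eq_zero.1 h2).resolve_left (tt_ne_zero k)
      · intro j _ hj
        rw [dotProduct_smul, h j hj, smul_zero]
      · intro h3
        exact absurd (Finset.mem_univ _) h3
    · exact h k hk
  have hvan : ∀ (a : m → K) (b : n → K), (∀ z, gen A *ᵥ z = 0 →
      (up (FF (Fin s) K) b ⬝ᵥ z) * (w ⬝ᵥ up (FF (Fin s) K) a) = 0) →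
      ∀ y ∈ ext (FF (Fin s) K) X, (up (FF (Fin s) K) b ⬝ᵥ y) * (w ⬝ᵥ up (FF (Fin s) K) a) = 0 := by
    intro a b hk y hy
    by_cases ha : w ⬝ᵥ up (FF (Fin s) K) a = 0
    · rw [ha, mul_zero]
    · rw [vanish hX (ψ := b) (fun z hz => (mul_eq_zero.1 (hk z hz)).resolve_right ha) hy,
        zero_mul]
  by_cases hβ : ∀ z, gen A *ᵥ z = 0 →
      (up (FF (Fin s) K) v0 ⬝ᵥ z) * (w ⬝ᵥ up (FF (Fin s) K) u0) = 0
  · intro k y hy
    refine hfree y hy (fun k hk => ?_) k
    rw [hAk k hk, hvan _ _ hβ y hy, mul_zero, zero_add]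
    refine hvan _ _ (fun z hz => ?_) y hy
    have := h1 z hz k hk
    rwa [hβ z hz, mul_zero, zero_add] at this
  · push Not at hβ
    obtain ⟨z, hz, hβz⟩ := hβ
    let J' := {k : Fin s // k ≠ e ∧ lam k ≠ 0}
    let α : Option J' → K := fun o => o.elim (-1) fun i => lam i.1
    let U : Option J' → m → K := fun o => o.elim u0 fun i => u i.1
    let V : Option J' → n → K := fun o => o.elim v0 fun i => v i.1
    let Δ : Option J' → Derivation K (FF (Fin s) K) (FF (Fin s) K) :=
      fun o => o.elim 0 fun i => (lam i.1)⁻¹ • dF i.1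
    have hcore : Core X (gen A) w z α U V Δ :=
      { hw := hw
        hzX := hzX z hz
        hz := hz
        hα := by
          rintro (_ | i)
          · exact neg_ne_zero.2 one_ne_zero
          · exact i.2.2
        hcomm := by
          rintro (_ | i) (_ | j) f
          · rfl
          · simp only [Δ, Option.elim_none, Option.elim_some, Derivation.zero_apply, map_zero]
          · simp only [Δ, Option.elim_none, Option.elim_some, Derivation.zero_apply, map_zero]
          · simp only [Δ, Option.elim_some, Derivation.smul_apply, Derivation.map_smul]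
            rw [dF_comm, smul_comm]
        hL := by
          intro i j y
          rw [dv_gen]
          congr 1
          have e2 : ∀ o, ∑ k, Δ o (tt K k) • ((A k).map (algebraMap K (FF (Fin s) K)) *ᵥ y) =
              (up (FF (Fin s) K) v0 ⬝ᵥ y) • up (FF (Fin s) K) u0 +
                (algebraMap K (FF (Fin s) K) (α o)⁻¹ * (up (FF (Fin s) K) (V o) ⬝ᵥ y)) •
                  up (FF (Fin s) K) (U o) := by
            rintro (_ | i)
            · simp only [Δ, α, U, V, Option.elim_none, Derivation.zero_apply, zero_smul,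
                Finset.sum_const_zero]
              rw [inv_neg, inv_one, map_neg, map_one, neg_one_mul, neg_smul, add_neg_cancel]
            · have e1 : ∀ (k : Fin s), Δ (some i) (tt K k) =
                  if k = i.1 then algebraMap K (FF (Fin s) K) (lam i.1)⁻¹ else 0 := by
                intro k
                simp only [Δ, Option.elim_some, Derivation.smul_apply, dF_tt]
                split_ifs
                · rw [Algebra.smul_def, mul_one]
                · rw [smul_zero]
              rw [Finset.sum_eq_single i.1]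
              · rw [e1, if_pos rfl]
                have e3 : (A i.1).map (algebraMap K (FF (Fin s) K)) =
                    algebraMap K (FF (Fin s) K) (lam i.1) •
                      (vecMulVec u0 v0).map (algebraMap K (FF (Fin s) K)) +
                    (vecMulVec (u i.1) (v i.1)).map (algebraMap K (FF (Fin s) K)) := by
                  ext a b
                  simp [hA i.1 i.2.1, Algebra.smul_def]
                rw [e3, add_mulVec, smul_mulVec, mulVec_rank_one, mulVec_rank_one, smul_add,
                  smul_smul, ← map_mul, inv_mul_cancel₀ i.2.2, map_one, one_smul, smul_smul]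
                rfl
              · intro b _ hb
                rw [e1, if_neg hb, zero_smul]
              · intro h
                exact absurd (Finset.mem_univ _) h
          have e4 : ∀ k, (Δ i - Δ j) (tt K k) •
              ((A k).map (algebraMap K (FF (Fin s) K)) *ᵥ y) =
              Δ i (tt K k) • ((A k).map (algebraMap K (FF (Fin s) K)) *ᵥ y) -
              Δ j (tt K k) • ((A k).map (algebraMap K (FF (Fin s) K)) *ᵥ y) := by
            intro k
            rw [Derivation.sub_apply, sub_smul]
          simp only [e4, Finset.sum_sub_distrib, e2]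
          abel
        hlog := by
          have h0 : ∀ o, ConstCoeff (Δ o) := by
            rintro (_ | i)
            · exact ConstCoeff.zero
            · exact (dF_const i.1).smul _
          intro i j b c hc h2 h3
          exact ((h0 i).sub (h0 j)).log hc h2 h3
        hne := by
          rintro (_ | i) h0
          · refine hβz ?_
            rw [mul_comm]
            exact h0
          · have h2 := h1 z hz i.1 i.2.1
            have h0' : (w ⬝ᵥ up (FF (Fin s) K) (u i.1)) * (up (FF (Fin s) K) (v i.1) ⬝ᵥ z) = 0 := h0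
            rw [mul_comm (up (FF (Fin s) K) (v i.1) ⬝ᵥ z), h0', add_zero] at h2
            rcases mul_eq_zero.1 h2 with h3 | h3
            · rw [map_eq_zero] at h3
              exact i.2.2 h3
            · exact hβz h3 }
    -- the indices outside
    have hout : ∀ k, k ≠ e → lam k = 0 → ∀ y ∈ ext (FF (Fin s) K) X,
        (up (FF (Fin s) K) (v k) ⬝ᵥ y) * (w ⬝ᵥ up (FF (Fin s) K) (u k)) = 0 :=
      fun k hke hk => hvan _ _ fun z hz => by
        have := h1 z hz k hke
        rwa [hk, map_zero, zero_mul, zero_add] at this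
    -- the ratios are constants
    have hconst : ∀ i j : Option J', ∃ c : K, gg (FF (Fin s) K) z α V i /
        gg (FF (Fin s) K) z α V j = algebraMap K (FF (Fin s) K) c := by
      intro i j
      set c := gg (FF (Fin s) K) z α V i / gg (FF (Fin s) K) z α V j with hc
      have e1 : ∀ k, k ≠ e → dF k c = 0 := by
        intro k hke
        by_cases hk : lam k = 0
        · refine hcore.deriv_zero (dF k)
            (fun y => (A k).map (algebraMap K (FF (Fin s) K)) *ᵥ y)
            (dv_gen_single A k) (fun y hy => ?_) i j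
          rw [hAk k hke, hk, map_zero, zero_mul, zero_add]
          exact hout k hke hk y hy
        · have e2 := hcore.const two_ne (some ⟨k, hke, hk⟩) none i j
          rw [← hc, Derivation.sub_apply] at e2
          simp only [Δ, Option.elim_none, Option.elim_some, Derivation.zero_apply, sub_zero,
            Derivation.smul_apply] at e2
          rw [Algebra.smul_def] at e2
          refine (mul_eq_zero.1 e2).resolve_left fun h3 => ?_
          rw [map_eq_zero, inv_eq_zero] at h3
          exact hk h3
      have e2 : euler (Fin s) K c = 0 :=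
        hcore.deriv_zero (euler (Fin s) K) (fun y => gen A *ᵥ y) (dv_gen_euler A) hw i j
      rw [euler_apply, Finset.sum_eq_single e (fun k _ hk => by rw [e1 k hk, mul_zero])
        (fun h => absurd (Finset.mem_univ _) h)] at e2
      refine const_of_dF c fun k => ?_
      by_cases hk : k = e
      · rw [hk]
        exact (mul_eq_zero.1 e2).resolve_left (tt_ne_zero e)
      · exact e1 k hk
    -- conclusion
    intro k y hy
    refine hfree y hy (fun k hke => ?_) k
    rw [hAk k hke]
    by_cases hk : lam k = 0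
    · rw [hk, map_zero, zero_mul, zero_add]
      exact hout k hke hk y hy
    · have e2 := hcore.agree hX hconst hy (some ⟨k, hke, hk⟩) none
      simp only [α, V, U, Option.elim_none, Option.elim_some] at e2
      rw [inv_neg, inv_one, map_neg, map_one] at e2
      have e3 : (up (FF (Fin s) K) (v k) ⬝ᵥ y) * (w ⬝ᵥ up (FF (Fin s) K) (u k)) =
          algebraMap K (FF (Fin s) K) (lam k) * (algebraMap K (FF (Fin s) K) (lam k)⁻¹ *
            (up (FF (Fin s) K) (v k) ⬝ᵥ y) * (w ⬝ᵥ up (FF (Fin s) K) (u k))) := by
        rw [← mul_assoc, ← mul_assoc, ← map_mul, mul_inv_cancel₀ hk, map_one, one_mul]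
      rw [e3, e2]
      ring

end cases

end Pool.Agent.W981.Hyp
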