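import Pool.Agent.W981.Hyp.Ext

/-!
# Linear families of matrices, the shift automorphisms and the rank one argument
-/

set_option autoImplicit false
set_option linter.unusedSectionVars false

namespace Pool.Agent.W981.Hyp

open Module Matrix MvPolynomial

section shift

variable {σ K : Type*} [Field K] [DecidableEq σ]

/-- the field of rational functions -/
abbrev FF (σ K : Type*) [Field K] := FractionRing (MvPolynomial σ K)

/-- the variables -/
noncomputable def tt (K : Type*) [Field K] {σ : Type*} (j : σ) : FF σ K :=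
  algebraMap (MvPolynomial σ K) (FF σ K) (X j)

/-- the substitution `x_k ↦ x_k + c` on polynomials -/
noncomputable def shp (k : σ) (c : K) : MvPolynomial σ K →ₐ[K] MvPolynomial σ K :=
  aeval fun j => X j + C (if j = k then c else 0)

theorem shp_shp (k : σ) (c : K) (p : MvPolynomial σ K) : shp k (-c) (shp k c p) = p := by
  have h : (shp k (-c)).comp (shp k c) = AlgHom.id K (MvPolynomial σ K) := by
    ext1 j
    simp only [shp, AlgHom.comp_apply, aeval_X, map_add, AlgHom.id_apply]
    by_cases hj : j = k
    · simp only [hj, if_true]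
      have : aeval (fun j => X j + C (if j = k then -c else 0)) (C c : MvPolynomial σ K) = C c := by
        rw [← algebraMap_eq, AlgHom.commutes]
      rw [this, add_assoc, ← C_add, neg_add_cancel, C_0, add_zero]
    · simp [hj]
  exact congrArg (fun f => f p) h

theorem shp_injective (k : σ) (c : K) : Function.Injective (shp (K := K) k c) :=
  Function.LeftInverse.injective (shp_shp k c)

/-- the substitution `x_k ↦ x_k + 1` on rational functions -/
noncomputable def sft (k : σ) : FF σ K →+* FF σ K :=
  IsFractionRing.lift (A := MvPolynomial σ K)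
    (g := (algebraMap (MvPolynomial σ K) (FF σ K)).comp (shp k 1).toRingHom)
    ((IsFractionRing.injective (MvPolynomial σ K) (FF σ K)).comp (shp_injective k 1))

theorem sft_algebraMap (k : σ) (p : MvPolynomial σ K) :
    sft k (algebraMap (MvPolynomial σ K) (FF σ K) p) = algebraMap _ _ (shp k 1 p) := by
  rw [sft, IsFractionRing.lift_algebraMap]
  rfl

theorem algebraMap_C (c : K) : algebraMap (MvPolynomial σ K) (FF σ K) (C c) =
    algebraMap K (FF σ K) c := by
  rw [IsScalarTower.algebraMap_apply K (MvPolynomial σ K) (FF σ K), algebraMap_eq]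

theorem sft_const (k : σ) (c : K) : sft k (algebraMap K (FF σ K) c) = algebraMap K (FF σ K) c := by
  rw [← algebraMap_C, sft_algebraMap]
  congr 1
  rw [← algebraMap_eq, AlgHom.commutes]

theorem sft_tt (k j : σ) : sft k (tt K j) = tt K j + if j = k then 1 else 0 := by
  rw [tt, sft_algebraMap, shp, aeval_X, map_add]
  congr 1
  split_ifs <;> simp

theorem sft_ne_zero (k : σ) {f : FF σ K} (hf : f ≠ 0) : sft k f ≠ 0 := by
  intro h
  exact hf ((sft k).injective (by rw [h, map_zero]))

end shift

section family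

variable {σ K : Type*} [Field K] [DecidableEq σ] [Fintype σ] {n m : Type*} [Fintype n] [Fintype m]

/-- the generic matrix `∑ x_k A_k` -/
noncomputable def gen (A : σ → Matrix m n K) : Matrix m n (FF σ K) :=
  ∑ k, tt K k • (A k).map (algebraMap K (FF σ K))

theorem gen_mulVec (A : σ → Matrix m n K) (z : n → FF σ K) :
    gen A *ᵥ z = ∑ k, tt K k • ((A k).map (algebraMap K (FF σ K)) *ᵥ z) := by
  rw [gen, Matrix.sum_mulVec]
  exact Finset.sum_congr rfl fun k _ => by rw [smul_mulVec]

/-- the sum of the images of `U` -/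
def im (A : σ → Matrix m n K) (U : Submodule K (n → K)) : Submodule K (m → K) :=
  ⨆ k, U.map (A k).mulVecLin

theorem mem_im {A : σ → Matrix m n K} {U : Submodule K (n → K)} {u : n → K} (hu : u ∈ U) (k : σ) :
    A k *ᵥ u ∈ im A U := Submodule.mem_iSup_of_mem k ⟨u, hu, rfl⟩

theorem im_mono {A : σ → Matrix m n K} {U U' : Submodule K (n → K)} (h : U ≤ U') :
    im A U ≤ im A U' := iSup_mono fun _ => Submodule.map_mono h

theorem im_le {A : σ → Matrix m n K} {U : Submodule K (n → K)} {W : Submodule K (m → K)} :
    im A U ≤ W ↔ ∀ k, ∀ u ∈ U, A k *ᵥ u ∈ W := by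
  constructor
  · intro h k u hu
    exact h (mem_im hu k)
  · intro h
    refine iSup_le fun k => ?_
    rintro _ ⟨u, hu, rfl⟩
    exact h k u hu

theorem gen_mem {A : σ → Matrix m n K} {U : Submodule K (n → K)} {W : Submodule K (m → K)}
    (h : im A U ≤ W) {z : n → FF σ K} (hz : z ∈ ext (FF σ K) U) : gen A *ᵥ z ∈ ext (FF σ K) W := by
  rw [gen_mulVec]
  exact Submodule.sum_mem _ fun k _ => Submodule.smul_mem _ _ (mulVec_mem_ext (im_le.1 h k) hz)

theorem map_gen_le (A : σ → Matrix m n K) (U : Submodule K (n → K)) :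
    (ext (FF σ K) U).map (gen A).mulVecLin ≤ ext (FF σ K) (im A U) := by
  rintro _ ⟨z, hz, rfl⟩
  exact gen_mem le_rfl hz

/-- the coordinatewise shift -/
noncomputable def sv (k : σ) {n : Type*} (z : n → FF σ K) : n → FF σ K := fun a => sft k (z a)

theorem up_sv (k : σ) (ψ : n → K) (z : n → FF σ K) :
    up (FF σ K) ψ ⬝ᵥ sv k z = sft k (up (FF σ K) ψ ⬝ᵥ z) := by
  simp only [dotProduct, map_sum, map_mul, sv, up, sft_const]

theorem sv_mem (k : σ) {W : Submodule K (n → K)} {z : n → FF σ K} :
    sv k z ∈ ext (FF σ K) W ↔ z ∈ ext (FF σ K) W := by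
  rw [mem_ext_iff, mem_ext_iff]
  constructor
  · intro h ψ hψ
    have := h ψ hψ
    rw [up_sv] at this
    exact (sft k).injective (by rw [this, map_zero])
  · intro h ψ hψ
    rw [up_sv, h ψ hψ, map_zero]

theorem sv_const_mulVec (k : σ) (B : Matrix m n K) (z : n → FF σ K) :
    sv k (B.map (algebraMap K (FF σ K)) *ᵥ z) = B.map (algebraMap K (FF σ K)) *ᵥ sv k z := by
  funext a
  simp only [mulVec, dotProduct, map_sum, map_mul, sv, Matrix.map_apply, sft_const]

theorem sv_gen_mulVec (k : σ) (A : σ → Matrix m n K) (z : n → FF σ K) :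
    sv k (gen A *ᵥ z) = gen A *ᵥ sv k z + (A k).map (algebraMap K (FF σ K)) *ᵥ sv k z := by
  rw [gen_mulVec, gen_mulVec]
  funext a
  rw [Pi.add_apply, Finset.sum_apply]
  simp only [sv, Finset.sum_apply, map_sum, Pi.smul_apply, smul_eq_mul, map_mul, sft_tt, add_mul,
    Finset.sum_add_distrib]
  have h : ∀ j, sft k (((A j).map (algebraMap K (FF σ K)) *ᵥ z) a) =
      ((A j).map (algebraMap K (FF σ K)) *ᵥ sv k z) a := fun j =>
    congrFun (sv_const_mulVec k (A j) z) a
  simp only [h]
  congr 1
  rw [Finset.sum_eq_single k]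
  · rw [if_pos rfl, one_mul]
  · intro b _ hb
    rw [if_neg hb, zero_mul]
  · intro hk
    exact absurd (Finset.mem_univ _) hk

/-- the vectors of `H` which the generic matrix maps to `W` -/
noncomputable def ZZ (A : σ → Matrix m n K) (H : Submodule K (n → K)) (W : Submodule K (m → K)) :
    Submodule (FF σ K) (n → FF σ K) :=
  (ext (FF σ K) W).comap (gen A).mulVecLin ⊓ ext (FF σ K) H

theorem mem_ZZ {A : σ → Matrix m n K} {H : Submodule K (n → K)} {W : Submodule K (m → K)}
    {z : n → FF σ K} : z ∈ ZZ A H W ↔ gen A *ᵥ z ∈ ext (FF σ K) W ∧ z ∈ ext (FF σ K) H := Iff.rfl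

/-- the rank one argument -/
theorem rank_one {A : σ → Matrix m n K} {H : Submodule K (n → K)}
    (h1 : ∀ k, finrank K (H.map (A k).mulVecLin) ≤ 1) (W : Submodule K (m → K)) :
    ∃ Y : Submodule K (n → K), Y ≤ H ∧ ZZ A H W ≤ ext (FF σ K) Y ∧
      finrank K (im A Y ⊔ W : Submodule K (m → K)) + finrank (FF σ K) (ZZ A H W) ≤
        finrank K W + finrank K Y := by
  set Z := ZZ A H W with hZ
  have hYH : hull K Z ≤ H := hull_le inf_le_right
  refine ⟨hull K Z, hYH, le_ext_hull Z, ?_⟩
  set Y := hull K Z with hY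
  set T : Submodule (FF σ K) (m → FF σ K) :=
    (ext (FF σ K) Y).map (gen A).mulVecLin ⊔ ext (FF σ K) W with hT
  -- the images are in `T`
  have key : ext (FF σ K) (im A Y ⊔ W) ≤ T := by
    rw [ext_sup]
    refine sup_le ?_ le_sup_right
    rw [ext_le_iff]
    intro u hu
    rw [im] at hu
    induction hu using Submodule.iSup_induction' with
    | zero => rw [up_zero]; exact Submodule.zero_mem _
    | add x y _ _ hx hy => rw [up_add]; exact Submodule.add_mem _ hx hy
    | mem k x hx =>
      obtain ⟨y, hy, rfl⟩ := hx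
      rw [mulVecLin_apply]
      by_cases hyW : A k *ᵥ y ∈ W
      · exact Submodule.mem_sup_right (up_mem hyW)
      · -- there is `z` in `Z` with `A_k z` not in `W`
        obtain ⟨z, hz, hzW⟩ : ∃ z ∈ Z, (A k).map (algebraMap K (FF σ K)) *ᵥ z ∉ ext (FF σ K) W := by
          by_contra hcon
          push Not at hcon
          have h2 : Y ≤ W.comap (A k).mulVecLin := hull_le fun z hz => mem_ext_comap (hcon z hz)
          exact hyW (h2 hy)
        -- its shift
        have hs : sv k z ∈ ext (FF σ K) Y := (sv_mem k).2 (le_ext_hull Z hz)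
        have hsW : (A k).map (algebraMap K (FF σ K)) *ᵥ sv k z ∉ ext (FF σ K) W := by
          rw [← sv_const_mulVec, sv_mem]
          exact hzW
        have h3 : sv k (gen A *ᵥ z) ∈ ext (FF σ K) W := (sv_mem k).2 hz.1
        rw [sv_gen_mulVec] at h3
        have h4 : (A k).map (algebraMap K (FF σ K)) *ᵥ sv k z ∈ T := by
          have h5 : (A k).map (algebraMap K (FF σ K)) *ᵥ sv k z =
              (gen A *ᵥ sv k z + (A k).map (algebraMap K (FF σ K)) *ᵥ sv k z) -
                gen A *ᵥ sv k z := by abel
          rw [h5]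
          exact Submodule.sub_mem _ (Submodule.mem_sup_right h3)
            (Submodule.mem_sup_left ⟨_, hs, rfl⟩)
        -- it is a multiple of `A_k y`
        have h6 : H.map (A k).mulVecLin ≤ Submodule.span K {A k *ᵥ y} := by
          have h7 : A k *ᵥ y ≠ 0 := by
            intro h0
            exact hyW (by rw [h0]; exact Submodule.zero_mem _)
          have h8 : Submodule.span K {A k *ᵥ y} ≤ H.map (A k).mulVecLin := by
            rw [Submodule.span_singleton_le_iff_mem]
            exact ⟨y, hYH hy, rfl⟩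
          rw [Submodule.eq_of_le_of_finrank_le h8 (by
            rw [finrank_span_singleton h7]
            exact h1 k)]
        have h9 : (A k).map (algebraMap K (FF σ K)) *ᵥ sv k z ∈
            ext (FF σ K) (Submodule.span K {A k *ᵥ y}) :=
          mulVec_mem_ext (fun w hw => h6 ⟨w, hYH hw, rfl⟩) hs
        rw [ext_span_singleton, Submodule.mem_span_singleton] at h9
        obtain ⟨c, hc⟩ := h9
        have hc0 : c ≠ 0 := by
          rintro rfl
          rw [zero_smul] at hc
          rw [← hc] at hsW
          exact hsW (Submodule.zero_mem _)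
        have h10 : up (FF σ K) (A k *ᵥ y) = c⁻¹ • (A k).map (algebraMap K (FF σ K)) *ᵥ sv k z := by
          rw [← hc, smul_smul, inv_mul_cancel₀ hc0, one_smul]
        rw [h10]
        exact Submodule.smul_mem _ _ h4
  have h2 := Submodule.finrank_mono key
  rw [finrank_ext] at h2
  have h3 := finrank_map_sup (gen A).mulVecLin (ext (FF σ K) Y) (ext (FF σ K) W)
  rw [← hT, finrank_ext, finrank_ext] at h3
  have h4 : Z ≤ (ext (FF σ K) W).comap (gen A).mulVecLin ⊓ ext (FF σ K) Y :=
    le_inf inf_le_left (le_ext_hull Z)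
  have h5 := Submodule.finrank_mono h4
  omega

end family

end Pool.Agent.W981.Hyp
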